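import Mathlib

/-!
# Stability of surjectivity on Artinian modules (piece FF-A of MP_c591d8_ag)
-/

set_option autoImplicit false

namespace Pool.Agent.R688.FF

universe u v w

namespace StabA

variable {R : Type u} [CommRing R] {A : Type v} [AddCommGroup A] [Module R A]

/-- the submodule `r B` -/
def sm (r : R) (B : Submodule R A) : Submodule R A := B.map (LinearMap.lsmul R A r)

theorem mem_sm {r : R} {B : Submodule R A} {a : A} : a ∈ sm r B ↔ ∃ b ∈ B, r • b = a := by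
  unfold sm
  rw [Submodule.mem_map]
  rfl

theorem sm_le (r : R) (B : Submodule R A) : sm r B ≤ B := by
  intro a ha
  obtain ⟨b, hb, rfl⟩ := mem_sm.1 ha
  exact B.smul_mem r hb

theorem sm_pow_anti (r : R) (B : Submodule R A) {n m : ℕ} (h : n ≤ m) :
    sm (r ^ m) B ≤ sm (r ^ n) B := by
  intro a ha
  obtain ⟨b, hb, rfl⟩ := mem_sm.1 ha
  refine mem_sm.2 ⟨r ^ (m - n) • b, B.smul_mem _ hb, ?_⟩
  rw [← mul_smul, ← pow_add]
  congr 2
  omega

/-- the chain `r^n B` stabilizes -/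
theorem sm_stab [IsArtinian R A] (r : R) (B : Submodule R A) :
    ∃ n, ∀ m, n ≤ m → sm (r ^ n) B = sm (r ^ m) B := by
  let f : ℕ →o (Submodule R A)ᵒᵈ := ⟨fun n => OrderDual.toDual (sm (r ^ n) B), fun n m h =>
    OrderDual.toDual_le_toDual.2 (sm_pow_anti r B h)⟩
  obtain ⟨n, hn⟩ := IsArtinian.monotone_stabilizes f
  exact ⟨n, fun m hm => OrderDual.toDual.injective (hn m hm)⟩

/-- `x B = B` -/
def Good (x : R) (B : Submodule R A) : Prop := ∀ a ∈ B, ∃ b ∈ B, x • b = a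

theorem Good.pow {x : R} {B : Submodule R A} (h : Good x B) (j : ℕ) : Good (x ^ j) B := by
  induction j with
  | zero => intro a ha; exact ⟨a, ha, by simp⟩
  | succ j ih =>
    intro a ha
    obtain ⟨b, hb, rfl⟩ := ih a ha
    obtain ⟨c, hc, rfl⟩ := h b hb
    exact ⟨c, hc, by rw [pow_succ, mul_smul]⟩

theorem dich [IsArtinian R A] (x r : R) (B : Submodule R A) (hB : Good x B)
    (h1 : ¬ Good r B) (h2 : ∀ n : ℕ, ∃ b ∈ B, r ^ n • b ≠ 0) :
    ∃ B1 C : Submodule R A, B1 < B ∧ C < B ∧ Good x B1 ∧ Good x C ∧ B ≤ B1 ⊔ C := by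
  obtain ⟨n0, hn0⟩ := sm_stab r B
  -- use exponent n = n0 + 1
  set n := n0 + 1 with hn
  have hst : ∀ m, n ≤ m → sm (r ^ n) B = sm (r ^ m) B := by
    intro m hm
    rw [← hn0 n (by omega), ← hn0 m (by omega)]
  let C : Submodule R A := B ⊓ LinearMap.ker (LinearMap.lsmul R A (r ^ n))
  have hC : ∀ a, a ∈ C ↔ a ∈ B ∧ r ^ n • a = 0 := by
    intro a
    simp [C]
  obtain ⟨j, hj⟩ := sm_stab x C
  refine ⟨sm (r ^ n) B, sm (x ^ j) C, ?_, ?_, ?_, ?_, ?_⟩
  · refine lt_of_le_of_ne (sm_le _ _) ?_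
    intro he
    apply h1
    intro a ha
    rw [← he] at ha
    obtain ⟨b, hb, rfl⟩ := mem_sm.1 ha
    refine ⟨r ^ n0 • b, B.smul_mem _ hb, ?_⟩
    rw [← mul_smul, ← pow_succ']
  · refine lt_of_le_of_ne ?_ ?_
    · intro a ha
      obtain ⟨b, hb, rfl⟩ := mem_sm.1 ha
      exact B.smul_mem _ ((hC b).1 hb).1
    · intro he
      obtain ⟨b, hb, hbn⟩ := h2 n
      apply hbn
      rw [← he] at hb
      obtain ⟨c, hc, rfl⟩ := mem_sm.1 hb
      rw [smul_comm, ((hC c).1 hc).2, smul_zero]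
  · intro a ha
    obtain ⟨b, hb, rfl⟩ := mem_sm.1 ha
    obtain ⟨c, hc, rfl⟩ := hB b hb
    exact ⟨r ^ n • c, mem_sm.2 ⟨c, hc, rfl⟩, smul_comm _ _ _⟩
  · intro a ha
    rw [hj (j + 1) (by omega)] at ha
    obtain ⟨b, hb, rfl⟩ := mem_sm.1 ha
    exact ⟨x ^ j • b, mem_sm.2 ⟨b, hb, rfl⟩, by rw [← mul_smul, ← pow_succ']⟩
  · intro a ha
    obtain ⟨b, hb, rfl⟩ := hB.pow j a ha
    -- b = r^n b' + c
    have h3 : r ^ n • b ∈ sm (r ^ n) B := mem_sm.2 ⟨b, hb, rfl⟩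
    rw [hst (n + n) (by omega)] at h3
    obtain ⟨b', hb', he⟩ := mem_sm.1 h3
    have hc : b - r ^ n • b' ∈ C := by
      refine (hC _).2 ⟨B.sub_mem hb (B.smul_mem _ hb'), ?_⟩
      rw [smul_sub, ← mul_smul, ← pow_add, he, sub_self]
    have e : x ^ j • b = x ^ j • (r ^ n • b') + x ^ j • (b - r ^ n • b') := by
      rw [← smul_add]; congr 1; abel
    rw [e]
    refine Submodule.add_mem_sup ?_ (mem_sm.2 ⟨_, hc, rfl⟩)
    exact mem_sm.2 ⟨x ^ j • b', B.smul_mem _ hb', smul_comm _ _ _⟩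

theorem krull [IsNoetherianRing R] [IsLocalRing R] (I : Ideal R) (r : R)
    (h : ∀ a : ℕ, r ∈ I ⊔ (IsLocalRing.maximalIdeal R) ^ a) : r ∈ I := by
  have h1 : (⨅ i : ℕ, (IsLocalRing.maximalIdeal R) ^ i • (⊤ : Submodule R (R ⧸ I))) = ⊥ :=
    Ideal.iInf_pow_smul_eq_bot_of_isLocalRing _ (Ideal.IsPrime.ne_top inferInstance)
  have h2 : (Ideal.Quotient.mk I r) ∈
      (⨅ i : ℕ, (IsLocalRing.maximalIdeal R) ^ i • (⊤ : Submodule R (R ⧸ I))) := by
    rw [Submodule.mem_iInf]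
    intro i
    obtain ⟨a, ha, b, hb, rfl⟩ := Submodule.mem_sup.1 (h i)
    rw [map_add, Ideal.Quotient.eq_zero_iff_mem.2 ha, zero_add]
    have : (Ideal.Quotient.mk I b) = b • (1 : R ⧸ I) := by
      rw [Algebra.smul_def, mul_one]; rfl
    rw [this]
    exact Submodule.smul_mem_smul hb trivial
  rw [h1, Submodule.mem_bot] at h2
  exact Ideal.Quotient.eq_zero_iff_mem.1 h2

theorem main [IsNoetherianRing R] [IsLocalRing R] [IsArtinian R A] (x : R) (B : Submodule R A) :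
    Good x B → ∃ N : ℕ, ∀ δ ∈ (IsLocalRing.maximalIdeal R) ^ N, Good (x + δ) B := by
  induction B using IsArtinian.induction with
  | hgt B ih =>
  intro hB
  by_cases hdec : ∃ r : R, ¬ Good r B ∧ ∀ n : ℕ, ∃ b ∈ B, r ^ n • b ≠ 0
  · obtain ⟨r, h1, h2⟩ := hdec
    obtain ⟨B1, C, hB1, hC, g1, g2, hsup⟩ := dich x r B hB h1 h2
    obtain ⟨N1, hN1⟩ := ih B1 hB1 g1
    obtain ⟨N2, hN2⟩ := ih C hC g2
    refine ⟨max N1 N2, fun δ hδ a ha => ?_⟩
    obtain ⟨b, hb, c, hc, rfl⟩ := Submodule.mem_sup.1 (hsup ha)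
    obtain ⟨b', hb', rfl⟩ := hN1 δ (Ideal.pow_le_pow_right (le_max_left _ _) hδ) b hb
    obtain ⟨c', hc', rfl⟩ := hN2 δ (Ideal.pow_le_pow_right (le_max_right _ _) hδ) c hc
    exact ⟨b' + c', B.add_mem (hB1.le hb') (hC.le hc'), smul_add _ _ _⟩
  · push Not at hdec
    by_cases hbot : B = ⊥
    · refine ⟨0, fun δ _ a ha => ⟨a, ha, ?_⟩⟩
      rw [hbot, Submodule.mem_bot] at ha
      rw [ha, smul_zero]
    · have hx : x ∉ (Module.annihilator R B).radical := by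
        rintro ⟨n, hn⟩
        apply hbot
        rw [Submodule.eq_bot_iff]
        intro a ha
        obtain ⟨b, hb, rfl⟩ := hB.pow n a ha
        have := Module.mem_annihilator.1 hn ⟨b, hb⟩
        have := congrArg Subtype.val this
        exact this
      have hk : ∃ N : ℕ, x ∉ (Module.annihilator R B).radical ⊔ (IsLocalRing.maximalIdeal R) ^ N := by
        by_contra hcon
        push Not at hcon
        exact hx (krull _ x hcon)
      obtain ⟨N, hN⟩ := hk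
      refine ⟨N, fun δ hδ => ?_⟩
      by_contra hg
      obtain ⟨n, hn⟩ := hdec (x + δ) hg
      apply hN
      have h1 : x + δ ∈ (Module.annihilator R B).radical := by
        refine ⟨n, Module.mem_annihilator.2 ?_⟩
        rintro ⟨b, hb⟩
        exact Subtype.ext (hn b hb)
      have h2 : x = (x + δ) + (-δ) := by ring
      rw [h2]
      exact Submodule.add_mem_sup h1 (neg_mem hδ)

end StabA

open StabA in
/-- FF-A -/
theorem stable_surj {R : Type u} [CommRing R] [IsNoetherianRing R] [IsLocalRing R]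
    {A : Type v} [AddCommGroup A] [Module R A] [IsArtinian R A] (x : R)
    (hx : ∀ a : A, ∃ b : A, x • b = a) :
    ∃ N : ℕ, ∀ δ ∈ (IsLocalRing.maximalIdeal R) ^ N, ∀ a : A, ∃ b : A, (x + δ) • b = a := by
  obtain ⟨N, hN⟩ := main x (⊤ : Submodule R A) (fun a _ => by
    obtain ⟨b, hb⟩ := hx a
    exact ⟨b, trivial, hb⟩)
  refine ⟨N, fun δ hδ a => ?_⟩
  obtain ⟨b, -, hb⟩ := hN δ hδ a trivial
  exact ⟨b, hb⟩

end Pool.Agent.R688.FF
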