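import Mathlib

/-! FF-B of MP_c591d8_ag: Melkersson's criterion for Artinian modules. -/

namespace Pool.Agent.R688.FF

universe u v w

/-- `y ^ n (N ∩ (0 : y ^ (n+1)))`, inside `B` -/
def melkL {R : Type u} [CommRing R] {A : Type v} [AddCommGroup A] [Module R A] (y : R)
    (B : Submodule R A) (N : Submodule R A) (n : ℕ) : Submodule R B where
  carrier := {z | ∃ a ∈ N, y ^ (n + 1) • a = 0 ∧ y ^ n • a = (z : A)}
  add_mem' := by
    rintro z z' ⟨a, ha, h1, h2⟩ ⟨a', ha', h1', h2'⟩
    refine ⟨a + a', N.add_mem ha ha', by rw [smul_add, h1, h1', add_zero], ?_⟩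
    rw [smul_add, h2, h2']; rfl
  zero_mem' := ⟨0, N.zero_mem, smul_zero _, by rw [smul_zero]; rfl⟩
  smul_mem' := by
    rintro c z ⟨a, ha, h1, h2⟩
    refine ⟨c • a, N.smul_mem c ha, by rw [smul_comm, h1, smul_zero], ?_⟩
    rw [smul_comm, h2]; rfl

lemma mem_melkL {R : Type u} [CommRing R] {A : Type v} [AddCommGroup A] [Module R A] {y : R}
    {B : Submodule R A} {N : Submodule R A} {n : ℕ} {z : B} :
    z ∈ melkL y B N n ↔ ∃ a ∈ N, y ^ (n + 1) • a = 0 ∧ y ^ n • a = (z : A) := Iff.rfl

/-- FF-B (Melkersson) -/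
theorem artinian_of_torsion {R : Type u} [CommRing R]
    {A : Type v} [AddCommGroup A] [Module R A] (y : R) (B : Submodule R A)
    (hB : ∀ a : A, y • a = 0 → a ∈ B) [IsArtinian R B]
    (ht : ∀ a : A, ∃ n : ℕ, y ^ n • a = 0) : IsArtinian R A := by
  rw [← monotone_stabilizes_iff_artinian]
  intro f
  -- the chain as submodules
  let N : ℕ → Submodule R A := fun i => OrderDual.ofDual (f i)
  have hN : ∀ i j, i ≤ j → N j ≤ N i := fun i j hij => OrderDual.ofDual_le_ofDual.2 (f.mono hij)
  have hLj : ∀ i j n, i ≤ j → melkL y B (N j) n ≤ melkL y B (N i) n := by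
    intro i j n hij z hz
    obtain ⟨a, ha, h1, h2⟩ := mem_melkL.1 hz
    exact mem_melkL.2 ⟨a, hN i j hij ha, h1, h2⟩
  have hLn1 : ∀ j n, melkL y B (N j) (n + 1) ≤ melkL y B (N j) n := by
    intro j n z hz
    obtain ⟨a, ha, h1, h2⟩ := mem_melkL.1 hz
    refine mem_melkL.2 ⟨y • a, (N j).smul_mem y ha, ?_, ?_⟩
    · rw [smul_smul, ← pow_succ]; exact h1
    · rw [smul_smul, ← pow_succ]; exact h2
  have hLn : ∀ j n m, n ≤ m → melkL y B (N j) m ≤ melkL y B (N j) n := by
    intro j n m hnm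
    induction m, hnm using Nat.le_induction with
    | base => exact le_rfl
    | succ m _ ih => exact (hLn1 j m).trans ih
  have hstab := (monotone_stabilizes_iff_artinian (R := R) (M := B)).2 inferInstance
  -- the diagonal
  obtain ⟨n0, hn0⟩ := hstab ⟨fun k => OrderDual.toDual (melkL y B (N k) k), fun i j hij =>
    ((hLj i j j hij).trans (hLn i i j hij) : melkL y B (N j) j ≤ melkL y B (N i) i)⟩
  have hn0' : ∀ m, n0 ≤ m → melkL y B (N n0) n0 = melkL y B (N m) m := fun m hm => hn0 m hm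
  have hdiag : ∀ j n, n0 ≤ j → n0 ≤ n → melkL y B (N j) n = melkL y B (N n0) n0 := by
    intro j n hj hn
    apply le_antisymm
    · exact (hLj n0 j n hj).trans (hLn n0 n0 n hn)
    · rw [hn0' (max j n) (hj.trans (le_max_left _ _))]
      exact (hLj j (max j n) (max j n) (le_max_left _ _)).trans
        (hLn j n (max j n) (le_max_right _ _))
  -- the rows
  have hrow : ∀ n, ∃ k, ∀ m, k ≤ m → melkL y B (N k) n = melkL y B (N m) n := by
    intro n
    obtain ⟨k, hk⟩ := hstab ⟨fun k => OrderDual.toDual (melkL y B (N k) n), fun i j hij =>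
      (hLj i j n hij : melkL y B (N j) n ≤ melkL y B (N i) n)⟩
    exact ⟨k, fun m hm => hk m hm⟩
  choose k hk using hrow
  let j0 := max n0 ((Finset.range n0).sup k)
  have hall : ∀ j n, j0 ≤ j → melkL y B (N j) n = melkL y B (N j0) n := by
    intro j n hj
    by_cases hn : n0 ≤ n
    · rw [hdiag j n ((le_max_left _ _).trans hj) hn, hdiag j0 n (le_max_left _ _) hn]
    · have h1 : k n ≤ j0 := (Finset.le_sup (f := k) (Finset.mem_range.2 (not_le.1 hn))).trans
        (le_max_right _ _)
      rw [← hk n j (h1.trans hj), ← hk n j0 h1]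
  have key : ∀ j, j0 ≤ j → ∀ n, ∀ a ∈ N j0, y ^ n • a = 0 → a ∈ N j := by
    intro j hj n
    induction n with
    | zero =>
      intro a _ h0
      rw [pow_zero, one_smul] at h0
      rw [h0]; exact (N j).zero_mem
    | succ n ih =>
      intro a ha h0
      have hzB : y ^ n • a ∈ B := by
        apply hB
        rw [smul_smul, ← pow_succ']; exact h0
      have hz : (⟨y ^ n • a, hzB⟩ : B) ∈ melkL y B (N j) n := by
        rw [hall j n hj]
        exact mem_melkL.2 ⟨a, ha, h0, rfl⟩
      obtain ⟨b, hb, h1, h2⟩ := mem_melkL.1 hz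
      have h3 : a - b ∈ N j := by
        apply ih
        · exact (N j0).sub_mem ha (hN j0 j hj hb)
        · rw [smul_sub, h2, sub_self]
      have h4 := (N j).add_mem h3 hb
      rwa [sub_add_cancel] at h4
  refine ⟨j0, fun j hj => ?_⟩
  have h5 : N j0 = N j := by
    apply le_antisymm
    · intro a ha
      obtain ⟨n, hn⟩ := ht a
      exact key j hj n a ha hn
    · exact hN j0 j hj
  exact h5

end Pool.Agent.R688.FF
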