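import Mathlib

namespace Pool.Agent.R688.FF
open TensorProduct

universe u v w

/-- FF-C1 -/
theorem artinian_of_fg {R : Type u} [CommRing R] [IsNoetherianRing R] [IsLocalRing R]
    {A : Type v} [AddCommGroup A] [Module R A] [Module.Finite R A] (n : ℕ)
    (h : ∀ z ∈ (IsLocalRing.maximalIdeal R) ^ n, ∀ a : A, z • a = 0) : IsArtinian R A := by
  rcases Nat.eq_zero_or_pos n with hn | hn
  · subst hn
    have hsub : Subsingleton A := by
      refine ⟨fun a b => ?_⟩
      have ha := h 1 (by simp) a
      have hb := h 1 (by simp) b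
      rw [one_smul] at ha hb
      rw [ha, hb]
    infer_instance
  set I : Ideal R := (IsLocalRing.maximalIdeal R) ^ n with hI
  have hIle : I ≤ IsLocalRing.maximalIdeal R := Ideal.pow_le_self hn.ne'
  have hIne : I ≠ ⊤ := fun h1 => (IsLocalRing.maximalIdeal.isMaximal R).ne_top
    (top_le_iff.1 (h1 ▸ hIle))
  have hnt : Nontrivial (R ⧸ I) := Ideal.Quotient.nontrivial_iff.2 hIne
  have hloc : IsLocalRing (R ⧸ I) :=
    IsLocalRing.of_surjective' (Ideal.Quotient.mk I) Ideal.Quotient.mk_surjective
  have hart : IsArtinianRing (R ⧸ I) := by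
    rw [isArtinianRing_iff_isNilpotent_maximalIdeal]
    refine ⟨n, ?_⟩
    have h1 : IsLocalRing.maximalIdeal (R ⧸ I) ≤
        (IsLocalRing.maximalIdeal R).map (Ideal.Quotient.mk I) := by
      intro x hx
      obtain ⟨r, rfl⟩ := Ideal.Quotient.mk_surjective x
      apply Ideal.mem_map_of_mem
      rw [IsLocalRing.mem_maximalIdeal, mem_nonunits_iff] at hx ⊢
      exact fun hr => hx (hr.map _)
    have h2 := Ideal.pow_right_mono h1 n
    rw [← Ideal.map_pow, ← hI, Ideal.map_quotient_self] at h2
    exact le_bot_iff.1 h2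
  have htor : Module.IsTorsionBySet R A (I : Set R) := by
    intro a z
    exact h z.1 z.2 a
  let _ : Module (R ⧸ I) A := htor.module
  have : IsScalarTower R (R ⧸ I) A := htor.isScalarTower
  have : Module.Finite (R ⧸ I) A := Module.Finite.of_restrictScalars_finite R (R ⧸ I) A
  have : IsArtinian (R ⧸ I) A := isArtinian_of_fg_of_artinian' 
  exact isArtinian_of_surjective_algebraMap (R := R ⧸ I) Ideal.Quotient.mk_surjective

/-- FF-C2 -/
theorem torsion_of_artinian {R : Type u} [CommRing R] [IsNoetherianRing R] [IsLocalRing R]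
    {A : Type v} [AddCommGroup A] [Module R A] [IsArtinian R A] (a : A) :
    ∃ n : ℕ, ∀ z ∈ (IsLocalRing.maximalIdeal R) ^ n, z • a = 0 := by
  set M : Submodule R A := Submodule.span R {a} with hM
  have hfin : Module.Finite R M := Module.Finite.iff_fg.2 (Submodule.fg_span_singleton a)
  have hnoe : IsNoetherian R M := isNoetherian_of_isNoetherianRing_of_finite R M
  let g : ℕ →o (Submodule R M)ᵒᵈ :=
    { toFun := fun k => OrderDual.toDual ((IsLocalRing.maximalIdeal R) ^ k • (⊤ : Submodule R M))
      monotone' := fun a b hab => Submodule.smul_mono_left (Ideal.pow_le_pow_right hab) }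
  obtain ⟨N, hN⟩ := IsArtinian.monotone_stabilizes g
  have h3 : ((IsLocalRing.maximalIdeal R) ^ N • (⊤ : Submodule R M)) =
      (IsLocalRing.maximalIdeal R) ^ (N + 1) • (⊤ : Submodule R M) :=
    hN (N + 1) (Nat.le_succ N)
  have h4 : ((IsLocalRing.maximalIdeal R) ^ N • (⊤ : Submodule R M)) = ⊥ := by
    apply Submodule.eq_bot_of_le_smul_of_le_jacobson_bot (IsLocalRing.maximalIdeal R) _
      (IsNoetherian.noetherian _)
    · nth_rewrite 1 [h3]
      rw [pow_succ', Submodule.mul_smul]
    · exact IsLocalRing.maximalIdeal_le_jacobson _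
  refine ⟨N, fun z hz => ?_⟩
  have h5 : z • (⟨a, Submodule.mem_span_singleton_self a⟩ : M) ∈
      ((IsLocalRing.maximalIdeal R) ^ N • (⊤ : Submodule R M)) :=
    Submodule.smul_mem_smul hz Submodule.mem_top
  rw [h4, Submodule.mem_bot] at h5
  exact congrArg Subtype.val h5

end Pool.Agent.R688.FF
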