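import Pool.Agent.R688.FF.Tors
import Pool.Agent.R688.FF.B
import Pool.Agent.R688.FF.C

/-! Čech cohomology is Artinian. -/

namespace Pool.Agent.R688.FF
open Finset Pool.Agent.R688.AN.Cech Pool.Agent.R688.FC

universe u
variable {R : Type u} [CommRing R] {n : ℕ}

/-- cohomology modulo `I` -/
abbrev HI (f : Fin n → R) (I : Ideal R) (i : ℕ) : Type u :=
  (Zs f I i) ⧸ (Bs f I i).submoduleOf (Zs f I i)

theorem uniform_torsion {A : Type*} [AddCommGroup A] [Module R A] [Module.Finite R A] (r : R)
    (h : ∀ a : A, ∃ N : ℕ, r ^ N • a = 0) : ∃ N : ℕ, ∀ a : A, r ^ N • a = 0 := by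
  obtain ⟨S, hS⟩ := Module.Finite.fg_top (R := R) (M := A)
  choose N hN using h
  refine ⟨S.sup N, fun a => ?_⟩
  have ha : a ∈ Submodule.span R (S : Set A) := by rw [hS]; exact Submodule.mem_top
  refine Submodule.span_induction ?_ ?_ ?_ ?_ ha
  · intro x hx
    have h1 : N x ≤ S.sup N := Finset.le_sup (Finset.mem_coe.mp hx)
    rw [← Nat.sub_add_cancel h1, pow_add, mul_smul, hN, smul_zero]
  · rw [smul_zero]
  · intro x y _ _ hx hy
    rw [smul_add, hx, hy, add_zero]
  · intro c x _ hx
    rw [smul_comm, hx, smul_zero]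

variable [IsNoetherianRing R] [IsLocalRing R]

/-- a finitely generated module which is torsion with respect to the `f j` is Artinian -/
theorem artinian_of_tors {A : Type*} [AddCommGroup A] [Module R A] [Module.Finite R A]
    (f : Fin n → R) (hf : (Ideal.span (Set.range f)).radical = IsLocalRing.maximalIdeal R)
    (h : ∀ j, ∀ a : A, ∃ N : ℕ, f j ^ N • a = 0) : IsArtinian R A := by
  let 𝔠 : Ideal R := Module.annihilator R A
  have h1 : IsLocalRing.maximalIdeal R ≤ 𝔠.radical := by
    rw [← hf, Ideal.radical_le_radical_iff, Ideal.span_le]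
    rintro _ ⟨j, rfl⟩
    obtain ⟨N, hN⟩ := uniform_torsion (f j) (h j)
    exact ⟨N, Module.mem_annihilator.mpr hN⟩
  obtain ⟨k, hk⟩ := Ideal.exists_pow_le_of_le_radical_of_fg h1 (IsNoetherian.noetherian _)
  exact artinian_of_fg k (fun z hz a => Module.mem_annihilator.mp (hk hz) a)

theorem HI_artinian (f : Fin n → R)
    (hf : (Ideal.span (Set.range f)).radical = IsLocalRing.maximalIdeal R) (i : ℕ) :
    ∀ I : Ideal R, IsArtinian R (HI f I i) := by
  induction i with
  | zero =>
    intro I
    let L : Ideal R := (Zs f I 0).comap (c0 f)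
    let g : L →ₗ[R] HI f I 0 :=
      ((Bs f I 0).submoduleOf (Zs f I 0)).mkQ.comp ((c0 f).restrict (fun r hr => hr))
    have hg : Function.Surjective g := by
      intro z
      obtain ⟨c, rfl⟩ := Submodule.Quotient.mk_surjective _ z
      obtain ⟨r, hr⟩ := c0_surj f c.2.1
      refine ⟨⟨r, ?_⟩, ?_⟩
      · show c0 f r ∈ Zs f I 0
        rw [hr]; exact c.2
      · show Submodule.Quotient.mk _ = Submodule.Quotient.mk _
        congr 1
        exact Subtype.ext hr
    have : Module.Finite R (HI f I 0) := Module.Finite.of_surjective g hg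
    refine artinian_of_tors f hf (fun j a => ?_)
    obtain ⟨c, rfl⟩ := Submodule.Quotient.mk_surjective _ a
    obtain ⟨N, hN⟩ := tors_f f I 0 c.2 j
    exact ⟨N, (Submodule.Quotient.mk_eq_zero _).mpr hN⟩
  | succ i ih =>
    intro I
    have hfm : ∀ j, f j ∈ IsLocalRing.maximalIdeal R := fun j => by
      rw [← hf]
      exact Ideal.le_radical (Ideal.subset_span ⟨j, rfl⟩)
    obtain ⟨y, hy, hFR, -⟩ := exists_good f hfm I ⊤ 1
    rw [pow_one] at hy
    set J := I ⊔ Ideal.span {y} with hJ
    choose! β hβ1 hβ2 using fun (c : Cochain f) (hc : c ∈ Zs f J i) => connect f hFR hc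
    have uniq : ∀ c (hc : c ∈ Zs f J i) (b) (hb : b ∈ Zs f I (i + 1)), dif f c - y • b ∈ IC f I →
        (Submodule.Quotient.mk ⟨β c, hβ1 c hc⟩ : HI f I (i + 1)) =
          (Submodule.Quotient.mk ⟨b, hb⟩ : HI f I (i + 1)) := by
      intro c hc b hb h
      rw [← sub_eq_zero, ← Submodule.Quotient.mk_sub]
      exact (Submodule.Quotient.mk_eq_zero _).mpr
        (connect_unique f hFR (hβ1 c hc).1 hb.1 (hβ2 c hc) h)
    let δ : Zs f J i →ₗ[R] HI f I (i + 1) :=
      { toFun := fun c => Submodule.Quotient.mk ⟨β c.1, hβ1 c.1 c.2⟩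
        map_add' := by
          intro c c'
          rw [← Submodule.Quotient.mk_add]
          refine uniq _ (c + c').2 _ (Submodule.add_mem _ (hβ1 _ c.2) (hβ1 _ c'.2)) ?_
          have := Submodule.add_mem _ (hβ2 _ c.2) (hβ2 _ c'.2)
          rw [Submodule.coe_add, map_add, smul_add, add_sub_add_comm]
          exact this
        map_smul' := by
          intro r c
          rw [RingHom.id_apply, ← Submodule.Quotient.mk_smul]
          refine uniq _ (r • c).2 _ (Submodule.smul_mem _ _ (hβ1 _ c.2)) ?_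
          have := Submodule.smul_mem _ r (hβ2 _ c.2)
          rw [Submodule.coe_smul, map_smul, smul_comm y r, ← smul_sub]
          exact this }
    have hker : (Bs f J i).submoduleOf (Zs f J i) ≤ LinearMap.ker δ := by
      intro c hc
      obtain ⟨w, hw, h⟩ := exists_Bs_decomp f I y i hc
      have h1 : dif f (c.1 - y • w) ∈ IC f I := (Bs_le_Zs f I i h).2
      rw [map_sub, map_smul] at h1
      have h2 := dif_mem_Bs f I hw
      have h3 := uniq c.1 c.2 (dif f w) (Bs_le_Zs f I _ h2) h1
      rw [LinearMap.mem_ker]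
      refine h3.trans ?_
      exact (Submodule.Quotient.mk_eq_zero _).mpr h2
    let φ : HI f J i →ₗ[R] HI f I (i + 1) := Submodule.liftQ _ δ hker
    have := ih J
    have hart : IsArtinian R (LinearMap.range φ) :=
      isArtinian_of_surjective _ φ.rangeRestrict φ.surjective_rangeRestrict
    refine artinian_of_torsion y (LinearMap.range φ) ?_ ?_
    · intro a ha
      obtain ⟨b, rfl⟩ := Submodule.Quotient.mk_surjective _ a
      have h0 : (Submodule.Quotient.mk (y • b) : HI f I (i + 1)) = 0 := ha
      have h0' : y • b ∈ (Bs f I (i + 1)).submoduleOf (Zs f I (i + 1)) :=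
        (Submodule.Quotient.mk_eq_zero _).mp h0
      have h1 : y • b.1 ∈ Bs f I (i + 1) := h0'
      obtain ⟨_, ⟨w, hw, rfl⟩, v, hv, e⟩ := Submodule.mem_sup.mp h1
      have h2 : dif f w - y • b.1 ∈ IC f I := by
        rw [← e, sub_add_cancel_left]
        exact Submodule.neg_mem _ hv.1
      have h3 : w ∈ Zs f J i := by
        refine ⟨hw, ?_⟩
        show dif f w ∈ IC f J
        have h4 : y • b.1 ∈ IC f J := by
          intro s
          show y • b.1 s ∈ _
          rw [Algebra.smul_def]
          exact Ideal.mul_mem_right _ _ (Ideal.mem_map_of_mem _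
            (Ideal.mem_sup_right (Ideal.mem_span_singleton_self y)))
        have h5 := Submodule.add_mem _ (IC_mono f (le_sup_left : I ≤ J) h2) h4
        rwa [sub_add_cancel] at h5
      exact ⟨Submodule.Quotient.mk ⟨w, h3⟩, uniq w h3 b.1 b.2 h2⟩
    · intro a
      obtain ⟨b, rfl⟩ := Submodule.Quotient.mk_surjective _ a
      obtain ⟨N, hN⟩ := tors_rad f I (i + 1) b.2 (y := y) (by rw [hf]; exact hy)
      exact ⟨N, (Submodule.Quotient.mk_eq_zero _).mpr hN⟩

end Pool.Agent.R688.FF
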