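import Pool.Agent.R688.FF.Art
import Pool.Agent.R688.FC.Fr

/-! F-fullness of `R / (y)` in terms of the local cohomology of `R`. -/

namespace Pool.Agent.R688.FF
open Finset Pool.Agent.R688.AN.Cech Pool.Agent.R688.FC

universe u
variable {R : Type u} [CommRing R] {n : ℕ} (p : ℕ) [hp : Fact p.Prime] [CharP R p]

/-- the principal ideal -/
abbrev J (x : R) : Ideal R := ⊥ ⊔ Ideal.span {x}

/-- F-fullness of `R / I` in degree `i` -/
def FFe (f : Fin n → R) (I : Ideal R) (i : ℕ) : Prop :=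
  Zs f I i ≤ Submodule.span R (frobC p f '' (Zs f I i : Set (Cochain f))) ⊔ Bs f I i

theorem frob_le (I : Ideal R) : I.map (frobenius R p) ≤ I := by
  rw [Ideal.map_le_iff_le_comap]
  intro r hr
  rw [Ideal.mem_comap, frobenius_def]
  exact Ideal.pow_mem_of_mem I hr p hp.out.pos

theorem frobC_Zs' (f : Fin n → R) {I : Ideal R} {i : ℕ} {c : Cochain f} (hc : c ∈ Zs f I i) :
    frobC p f c ∈ Zs f I i := Zs_mono f (frob_le p I) i (frobC_Zs p f hc)

theorem frobC_Bs' (f : Fin n → R) {I : Ideal R} {i : ℕ} {c : Cochain f} (hc : c ∈ Bs f I i) :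
    frobC p f c ∈ Bs f I i := Bs_mono f (frob_le p I) i (frobC_Bs p f hc)

/-- iterated F-fullness -/
theorem FFe_iter (f : Fin n → R) (I : Ideal R) (i : ℕ) (h : FFe p f I i) (e : ℕ) :
    Zs f I i ≤ Submodule.span R (Fe p f e '' (Zs f I i : Set (Cochain f))) ⊔ Bs f I i := by
  induction e with
  | zero =>
    intro c hc
    exact Submodule.mem_sup_left (Submodule.subset_span ⟨c, hc, rfl⟩)
  | succ e ih =>
    have key : ∀ c ∈ Submodule.span R (Fe p f e '' (Zs f I i : Set (Cochain f))) ⊔ Bs f I i,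
        frobC p f c ∈ Submodule.span R (Fe p f (e + 1) '' (Zs f I i : Set (Cochain f))) ⊔
          Bs f I i := by
      intro c hc
      obtain ⟨c1, hc1, c2, hc2, rfl⟩ := Submodule.mem_sup.mp hc
      rw [map_add]
      refine Submodule.add_mem _ ?_ (Submodule.mem_sup_right (frobC_Bs' p f hc2))
      apply Submodule.mem_sup_left
      refine Submodule.span_induction ?_ ?_ ?_ ?_ hc1
      · rintro _ ⟨z, hz, rfl⟩
        exact Submodule.subset_span ⟨z, hz, rfl⟩
      · rw [map_zero]; exact Submodule.zero_mem _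
      · intro a b _ _ ha hb
        rw [map_add]; exact Submodule.add_mem _ ha hb
      · intro r a _ ha
        rw [LinearMap.map_smulₛₗ]; exact Submodule.smul_mem _ _ ha
    refine h.trans (sup_le ?_ le_sup_right)
    rw [Submodule.span_le]
    rintro _ ⟨c, hc, rfl⟩
    exact key c (ih hc)

section nzd
variable (f : Fin n → R) {x : R} (hx : ∀ r : R, x * r = 0 → r = 0)

omit [CharP R p] hp in
include hx in
theorem FR_nzd : FR f (⊥ : Ideal R) x := fun r hr _ => ⟨0, by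
  rw [Ideal.mem_bot] at hr ⊢
  rw [hx r hr, mul_zero]⟩

omit [CharP R p] hp in
include hx in
theorem nzd_cochain {c : Cochain f} (h : x • c = 0) : c = 0 := by
  funext s
  have hs : x • c s = 0 := congrFun h s
  obtain ⟨k, r, e⟩ := IsLocalization.Away.surj (∏ j ∈ s, f j) (c s)
  have hu : IsUnit (algebraMap R (CLoc f s) (∏ j ∈ s, f j) ^ k) :=
    (IsLocalization.Away.algebraMap_isUnit _).pow k
  have h1 : algebraMap R (CLoc f s) (x * r) = 0 := by
    rw [map_mul, ← e, ← mul_assoc, ← Algebra.smul_def, hs, zero_mul]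
  have h2 : algebraMap R (CLoc f s) (x * r) ∈ (⊥ : Ideal R).map (algebraMap R (CLoc f s)) := by
    rw [h1]; exact Ideal.zero_mem _
  rw [mem_map_iff] at h2
  obtain ⟨N, hN⟩ := h2
  rw [Ideal.mem_bot, mul_left_comm] at hN
  have h3 := hx _ hN
  have h4 : algebraMap R (CLoc f s) r ∈ (⊥ : Ideal R).map (algebraMap R (CLoc f s)) := by
    rw [mem_map_iff]
    exact ⟨N, by rw [Ideal.mem_bot]; exact h3⟩
  rw [Ideal.map_bot, Ideal.mem_bot] at h4
  rw [h4] at e
  exact (hu.mul_left_eq_zero).mp e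

omit [CharP R p] hp in
include hx in
/-- the connecting map for a nonzerodivisor -/
theorem conn {i : ℕ} {c : Cochain f} (hc : c ∈ Zs f (J x) i) :
    ∃ b ∈ Zs f (⊥ : Ideal R) (i + 1), dif f c = x • b := by
  obtain ⟨b, hb, e⟩ := connect f (FR_nzd f hx) hc
  exact ⟨b, hb, sub_eq_zero.mp (IC_bot f e)⟩

omit [CharP R p] hp in
theorem conn_mem {x : R} {i : ℕ} {c b : Cochain f} (hc : c ∈ deg f i) (e : dif f c = x • b) :
    c ∈ Zs f (J x) i := by
  refine ⟨hc, ?_⟩
  show dif f c ∈ IC f (J x)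
  rw [e]
  intro s
  show x • b s ∈ _
  rw [Algebra.smul_def]
  exact Ideal.mul_mem_right _ _ (Ideal.mem_map_of_mem _
    (Ideal.mem_sup_right (Ideal.mem_span_singleton_self x)))

end nzd

omit [CharP R p] hp in
theorem Bs_succ_bot (f : Fin n → R) {i : ℕ} {c : Cochain f} (hc : c ∈ Bs f (⊥ : Ideal R) (i + 1)) :
    ∃ w ∈ deg f i, dif f w = c := by
  obtain ⟨_, ⟨w, hw, rfl⟩, v, hv, rfl⟩ := Submodule.mem_sup.mp hc
  refine ⟨w, hw, ?_⟩
  rw [IC_bot f hv.1, add_zero]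

omit [CharP R p] hp in
theorem Zs_bot_dif (f : Fin n → R) {i : ℕ} {c : Cochain f} (hc : c ∈ Zs f (⊥ : Ideal R) i) :
    dif f c = 0 := IC_bot f hc.2

omit [CharP R p] hp in
theorem Bs_J_dif (f : Fin n → R) {x : R} {i : ℕ} {c : Cochain f} (hc : c ∈ Bs f (J x) i) :
    ∃ a ∈ deg f i, dif f c = x • dif f a := by
  obtain ⟨w, hw, h⟩ := exists_Bs_decomp f ⊥ x i hc
  refine ⟨w, hw, ?_⟩
  have h1 := Zs_bot_dif f (Bs_le_Zs f ⊥ i h)
  rw [map_sub, map_smul, sub_eq_zero] at h1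
  exact h1

/-- classes -/
noncomputable def cls (f : Fin n → R) (i : ℕ) (c : Cochain f) (hc : c ∈ Zs f (⊥ : Ideal R) i) :
    CechH f i :=
  Submodule.Quotient.mk (p := cobZ f i) (⟨c, hc.1, IC_bot f hc.2⟩ : cocycles f i)

omit [CharP R p] hp in
theorem cls_surj (f : Fin n → R) (i : ℕ) (z : CechH f i) : ∃ c hc, cls f i c hc = z := by
  obtain ⟨c, rfl⟩ := Submodule.Quotient.mk_surjective _ z
  refine ⟨c.1, ⟨c.2.1, ?_⟩, rfl⟩
  show dif f c.1 ∈ IC f ⊥
  rw [show dif f c.1 = 0 from c.2.2]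
  exact Submodule.zero_mem _

omit [CharP R p] hp in
theorem cls_eq_zero (f : Fin n → R) (i : ℕ) {c : Cochain f} (hc : c ∈ Zs f (⊥ : Ideal R) i) :
    cls f i c hc = 0 ↔ c ∈ Bs f (⊥ : Ideal R) i := by
  have h1 : cls f i c hc = 0 ↔ c ∈ coboundaries f i := Submodule.Quotient.mk_eq_zero _
  rw [h1]
  constructor
  · intro h
    cases i with
    | zero =>
      have : c = 0 := h
      rw [this]; exact Submodule.zero_mem _
    | succ i => exact Submodule.mem_sup_left h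
  · intro h
    cases i with
    | zero => exact IC_bot f h.1
    | succ i =>
      obtain ⟨w, hw, e⟩ := Bs_succ_bot f h
      exact ⟨w, hw, e⟩

omit [CharP R p] hp in
theorem cls_add (f : Fin n → R) (i : ℕ) {c c' : Cochain f} (hc : c ∈ Zs f (⊥ : Ideal R) i)
    (hc' : c' ∈ Zs f (⊥ : Ideal R) i) :
    cls f i (c + c') (Submodule.add_mem _ hc hc') = cls f i c hc + cls f i c' hc' := rfl

omit [CharP R p] hp in
theorem cls_smul (f : Fin n → R) (i : ℕ) (r : R) {c : Cochain f}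
    (hc : c ∈ Zs f (⊥ : Ideal R) i) :
    cls f i (r • c) (Submodule.smul_mem _ r hc) = r • cls f i c hc := rfl

omit [CharP R p] hp in
theorem cls_eq (f : Fin n → R) (i : ℕ) {c c' : Cochain f} (hc : c ∈ Zs f (⊥ : Ideal R) i)
    (hc' : c' ∈ Zs f (⊥ : Ideal R) i) :
    cls f i c hc = cls f i c' hc' ↔ c - c' ∈ Bs f (⊥ : Ideal R) i := by
  rw [← cls_eq_zero f i (Submodule.sub_mem _ hc hc'), ← sub_eq_zero]
  rfl

theorem frobC_Zs0 (f : Fin n → R) {i : ℕ} {c : Cochain f} (hc : c ∈ Zs f (⊥ : Ideal R) i) :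
    frobC p f c ∈ Zs f (⊥ : Ideal R) i := frobC_Zs' p f hc

theorem cls_frob (f : Fin n → R) (i : ℕ) {c : Cochain f}
    (hc : c ∈ Zs f (⊥ : Ideal R) i) :
    cls f i (frobC p f c) (frobC_Zs0 p f hc) = frobH p f i (cls f i c hc) := rfl

/-- the criterion -/
def CC (f : Fin n → R) (x : R) (i : ℕ) : Prop :=
  ∀ a : CechH f i, x • a = 0 →
    a ∈ Submodule.span R {z : CechH f i | ∃ b : CechH f i, x • b = 0 ∧
      z = x ^ (p - 1) • frobH p f i b}

section main
variable (f : Fin n → R) {x : R} (hx : ∀ r : R, x * r = 0 → r = 0)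

omit [CharP R p] hp in
include hx in
/-- a class killed by `x` is the image of the connecting map -/
theorem exists_w {i : ℕ} (b : Cochain f) (hb : b ∈ Zs f (⊥ : Ideal R) (i + 1))
    (h : x • cls f (i + 1) b hb = 0) : ∃ w ∈ Zs f (J x) i, dif f w = x • b := by
  rw [← cls_smul, cls_eq_zero] at h
  obtain ⟨w, hw, e⟩ := Bs_succ_bot f h
  exact ⟨w, conn_mem f hw e, e⟩

include hx in
theorem div_pow {i : ℕ} (h : FFe p f (J x) i) (a : CechH f (i + 1)) (ha : x • a = 0) (N : ℕ) :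
    ∃ b, a = x ^ N • b := by
  obtain ⟨b, hb, rfl⟩ := cls_surj f (i + 1) a
  obtain ⟨w, hw, e⟩ := exists_w f hx b hb ha
  have hT : ∀ w ∈ Submodule.span R (Fe p f (N + 1) '' (Zs f (J x) i : Set (Cochain f))) ⊔
      Bs f (J x) i, ∃ b1 ∈ Zs f (⊥ : Ideal R) (i + 1), ∃ a ∈ deg f i,
        dif f w = x ^ p ^ (N + 1) • b1 + x • dif f a := by
    intro w hw
    obtain ⟨w1, hw1, w2, hw2, rfl⟩ := Submodule.mem_sup.mp hw
    obtain ⟨a2, ha2, e2⟩ := Bs_J_dif f hw2
    have h1 : ∃ b1 ∈ Zs f (⊥ : Ideal R) (i + 1), dif f w1 = x ^ p ^ (N + 1) • b1 := by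
      refine Submodule.span_induction ?_ ?_ ?_ ?_ hw1
      · rintro _ ⟨c, hc, rfl⟩
        obtain ⟨b', hb', e'⟩ := conn f hx hc
        refine ⟨Fe p f (N + 1) b', ?_, ?_⟩
        · have := Fe_Zs p f (N + 1) hb'
          rwa [Ifr_bot] at this
        · rw [dif_Fe, e', Fe_smul]
      · exact ⟨0, Submodule.zero_mem _, by rw [map_zero, smul_zero]⟩
      · rintro a b _ _ ⟨b1, hb1, e1⟩ ⟨b2, hb2, e2⟩
        exact ⟨b1 + b2, Submodule.add_mem _ hb1 hb2, by rw [map_add, e1, e2, smul_add]⟩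
      · rintro r a _ ⟨b1, hb1, e1⟩
        exact ⟨r • b1, Submodule.smul_mem _ _ hb1, by rw [map_smul, e1, smul_comm]⟩
    obtain ⟨b1, hb1, e1⟩ := h1
    exact ⟨b1, hb1, a2, ha2, by rw [map_add, e1, e2]⟩
  obtain ⟨b1, hb1, a1, ha1, e1⟩ := hT w (FFe_iter p f (J x) i h (N + 1) hw)
  have hq : N + 1 ≤ p ^ (N + 1) := (Nat.lt_pow_self hp.out.one_lt).le
  have e2 : b = x ^ (p ^ (N + 1) - 1) • b1 + dif f a1 := by
    rw [← sub_eq_zero]
    apply nzd_cochain f hx
    rw [smul_sub, ← e, e1, smul_add, ← mul_smul, ← pow_succ',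
      Nat.sub_add_cancel (by omega : 1 ≤ p ^ (N + 1)), sub_self]
  refine ⟨x ^ (p ^ (N + 1) - 1 - N) • cls f (i + 1) b1 hb1, ?_⟩
  rw [← mul_smul, ← pow_add, show N + (p ^ (N + 1) - 1 - N) = p ^ (N + 1) - 1 by omega,
    ← cls_smul, cls_eq, e2, add_sub_cancel_left]
  exact dif_mem_Bs f _ ha1

include hx in
theorem CC_of_FFe {i : ℕ} (h : FFe p f (J x) i) : CC p f x (i + 1) := by
  intro a ha
  obtain ⟨b, hb, rfl⟩ := cls_surj f (i + 1) a
  obtain ⟨w, hw, e⟩ := exists_w f hx b hb ha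
  set SP := Submodule.span R {z : CechH f (i + 1) | ∃ b : CechH f (i + 1), x • b = 0 ∧
      z = x ^ (p - 1) • frobH p f (i + 1) b} with hSP
  obtain ⟨w1, hw1, w2, hw2, rfl⟩ := Submodule.mem_sup.mp (h hw)
  obtain ⟨a2, ha2, e2⟩ := Bs_J_dif f hw2
  have h1 : ∃ (b1 : Cochain f) (hb1 : b1 ∈ Zs f (⊥ : Ideal R) (i + 1)), dif f w1 = x • b1 ∧
      cls f (i + 1) b1 hb1 ∈ SP := by
    refine Submodule.span_induction ?_ ?_ ?_ ?_ hw1
    · rintro _ ⟨c, hc, rfl⟩
      obtain ⟨b', hb', e'⟩ := conn f hx hc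
      refine ⟨x ^ (p - 1) • frobC p f b', Submodule.smul_mem _ _ (frobC_Zs0 p f hb'), ?_, ?_⟩
      · rw [dif_frobC, e', LinearMap.map_smulₛₗ, frobenius_def, ← mul_smul, ← pow_succ',
          Nat.sub_add_cancel hp.out.one_lt.le]
      · apply Submodule.subset_span
        refine ⟨cls f (i + 1) b' hb', ?_, rfl⟩
        rw [← cls_smul, cls_eq_zero, ← e']
        exact dif_mem_Bs f _ hc.1
    · exact ⟨0, Submodule.zero_mem _, by rw [map_zero, smul_zero], Submodule.zero_mem _⟩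
    · rintro a b _ _ ⟨b1, hb1, e1, h1⟩ ⟨b2, hb2, e2, h2⟩
      exact ⟨b1 + b2, Submodule.add_mem _ hb1 hb2, by rw [map_add, e1, e2, smul_add],
        Submodule.add_mem _ h1 h2⟩
    · rintro r a _ ⟨b1, hb1, e1, h1⟩
      exact ⟨r • b1, Submodule.smul_mem _ _ hb1, by rw [map_smul, e1, smul_comm],
        Submodule.smul_mem _ _ h1⟩
  obtain ⟨b1, hb1, e1, h1⟩ := h1
  have e3 : b = b1 + dif f a2 := by
    rw [← sub_eq_zero]
    apply nzd_cochain f hx
    rw [smul_sub, ← e, map_add, e1, e2, smul_add, sub_self]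
  have e4 : cls f (i + 1) b hb = cls f (i + 1) b1 hb1 := by
    rw [cls_eq, e3, add_sub_cancel_left]
    exact dif_mem_Bs f _ ha2
  rw [e4]
  exact h1

include hx in
theorem FFe_of_CC {i : ℕ} (h : CC p f x (i + 1)) (hs : ∀ a : CechH f i, ∃ b, x • b = a) :
    FFe p f (J x) i := by
  intro c hc
  obtain ⟨b, hb, e⟩ := conn f hx hc
  have h0 : x • cls f (i + 1) b hb = 0 := by
    rw [← cls_smul, cls_eq_zero, ← e]
    exact dif_mem_Bs f _ hc.1
  have h1 : ∀ z ∈ Submodule.span R {z : CechH f (i + 1) | ∃ b : CechH f (i + 1), x • b = 0 ∧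
      z = x ^ (p - 1) • frobH p f (i + 1) b},
      ∃ c' ∈ Submodule.span R (frobC p f '' (Zs f (J x) i : Set (Cochain f))),
        ∃ (b' : Cochain f) (hb' : b' ∈ Zs f (⊥ : Ideal R) (i + 1)), dif f c' = x • b' ∧
          cls f (i + 1) b' hb' = z ∧ c' ∈ deg f i := by
    intro z hz
    refine Submodule.span_induction ?_ ?_ ?_ ?_ hz
    · rintro _ ⟨b1, hb1, rfl⟩
      obtain ⟨d, hd, rfl⟩ := cls_surj f (i + 1) b1
      obtain ⟨w, hw, ew⟩ := exists_w f hx d hd hb1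
      refine ⟨frobC p f w, Submodule.subset_span ⟨w, hw, rfl⟩, x ^ (p - 1) • frobC p f d,
        Submodule.smul_mem _ _ (frobC_Zs0 p f hd), ?_, rfl, frobC_deg p f i hw.1⟩
      rw [dif_frobC, ew, LinearMap.map_smulₛₗ, frobenius_def, ← mul_smul, ← pow_succ',
          Nat.sub_add_cancel hp.out.one_lt.le]
    · exact ⟨0, Submodule.zero_mem _, 0, Submodule.zero_mem _, by rw [map_zero, smul_zero], rfl,
        Submodule.zero_mem _⟩
    · rintro a b _ _ ⟨c1, hc1, b1, hb1, e1, h1, d1⟩ ⟨c2, hc2, b2, hb2, e2, h2, d2⟩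
      exact ⟨c1 + c2, Submodule.add_mem _ hc1 hc2, b1 + b2, Submodule.add_mem _ hb1 hb2,
        by rw [map_add, e1, e2, smul_add], by rw [← h1, ← h2]; rfl, Submodule.add_mem _ d1 d2⟩
    · rintro r a _ ⟨c1, hc1, b1, hb1, e1, h1, d1⟩
      exact ⟨r • c1, Submodule.smul_mem _ _ hc1, r • b1, Submodule.smul_mem _ _ hb1,
        by rw [map_smul, e1, smul_comm], by rw [← h1]; rfl, Submodule.smul_mem _ _ d1⟩
  obtain ⟨c', hc', b', hb', e', he', hd'⟩ := h1 _ (h _ h0)
  have h2 : b - b' ∈ Bs f (⊥ : Ideal R) (i + 1) := by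
    rw [← cls_eq f (i + 1) hb hb', he']
  obtain ⟨w, hw, ew⟩ := Bs_succ_bot f h2
  have h3 : c - c' - x • w ∈ Zs f (⊥ : Ideal R) i := by
    refine ⟨Submodule.sub_mem _ (Submodule.sub_mem _ hc.1 hd') (Submodule.smul_mem _ _ hw), ?_⟩
    show dif f (c - c' - x • w) ∈ IC f ⊥
    rw [map_sub, map_sub, map_smul, e, e', ew, ← smul_sub, sub_self]
    exact Submodule.zero_mem _
  obtain ⟨d, hd⟩ := hs (cls f i _ h3)
  obtain ⟨d, hdZ, rfl⟩ := cls_surj f i d
  rw [← cls_smul, eq_comm, cls_eq] at hd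
  have e5 : c = c' + (x • (w + d) + (c - c' - x • w - x • d)) := by
    rw [smul_add]; abel
  rw [e5]
  refine Submodule.add_mem _ (Submodule.mem_sup_left hc') (Submodule.mem_sup_right ?_)
  exact Submodule.add_mem _ (smul_mem_Bs f ⊥ x (Submodule.add_mem _ hw hdZ.1))
    (Bs_mono f bot_le i hd)

include hx in
theorem H0_zero (hxr : x ∈ (Ideal.span (Set.range f)).radical) (a : CechH f 0) : a = 0 := by
  obtain ⟨c, hc, rfl⟩ := cls_surj f 0 a
  obtain ⟨N, hN⟩ := tors_rad f ⊥ 0 hc hxr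
  have h1 : x ^ N • c = 0 := IC_bot f hN.1
  have h2 : ∀ (k : ℕ) (c : Cochain f), x ^ k • c = 0 → c = 0 := by
    intro k
    induction k with
    | zero => intro c h; rwa [pow_zero, one_smul] at h
    | succ k ih =>
      intro c h
      rw [pow_succ', mul_smul] at h
      exact ih c (nzd_cochain f hx h)
  have h3 := h2 N c h1
  rw [cls_eq_zero, h3]
  exact Submodule.zero_mem _

include hx in
theorem surj_of_FFe (hxr : x ∈ (Ideal.span (Set.range f)).radical)
    (h : ∀ i, FFe p f (J x) i) (i : ℕ) (a : CechH f i) : ∃ b, x • b = a := by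
  cases i with
  | zero => exact ⟨0, by rw [H0_zero f hx hxr a, smul_zero]⟩
  | succ i =>
    have key : ∀ (k : ℕ) (a : CechH f (i + 1)), x ^ k • a = 0 → ∃ b, x • b = a := by
      intro k
      induction k with
      | zero =>
        intro a ha
        rw [pow_zero, one_smul] at ha
        exact ⟨0, by rw [ha, smul_zero]⟩
      | succ k ih =>
        intro a ha
        rw [pow_succ', mul_smul] at ha
        obtain ⟨b, hb⟩ := div_pow p f hx (h i) _ ha (k + 1)
        have h1 : x ^ k • (a - x • b) = 0 := by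
          rw [smul_sub, hb, ← mul_smul, ← pow_succ, sub_self]
        obtain ⟨d, hd⟩ := ih _ h1
        exact ⟨d + b, by rw [smul_add, hd, sub_add_cancel]⟩
    obtain ⟨c, hc, rfl⟩ := cls_surj f (i + 1) a
    obtain ⟨N, hN⟩ := tors_rad f ⊥ (i + 1) hc hxr
    apply key N
    rw [← cls_smul, cls_eq_zero]
    exact hN

end main

end Pool.Agent.R688.FF
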