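import Pool.Agent.R688.FF.Asm

/-! Comparison of the Čech complex of `R / I` with the Čech complex of `R` modulo `I`. -/

namespace Pool.Agent.R688.FF
open Finset Pool.Agent.R688.AN.Cech Pool.Agent.R688.FC

universe u
variable {R : Type u} [CommRing R] {n : ℕ}

/-- the images of the `f j` in `R / I` -/
abbrev fb (f : Fin n → R) (I : Ideal R) : Fin n → R ⧸ I := fun j => Ideal.Quotient.mk I (f j)

theorem fb_prod (f : Fin n → R) (I : Ideal R) (s : Finset (Fin n)) :
    ∏ j ∈ s, fb f I j = Ideal.Quotient.mk I (∏ j ∈ s, f j) := (map_prod _ _ _).symm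

/-- the map of localizations -/
noncomputable def pr (f : Fin n → R) (I : Ideal R) (s : Finset (Fin n)) :
    CLoc f s →+* CLoc (fb f I) s :=
  IsLocalization.Away.lift (∏ j ∈ s, f j)
    (g := (algebraMap (R ⧸ I) (CLoc (fb f I) s)).comp (Ideal.Quotient.mk I)) (by
      rw [RingHom.comp_apply, ← fb_prod]
      exact IsLocalization.Away.algebraMap_isUnit _)

theorem pr_algebraMap (f : Fin n → R) (I : Ideal R) (s : Finset (Fin n)) (r : R) :
    pr f I s (algebraMap R _ r) = algebraMap (R ⧸ I) _ (Ideal.Quotient.mk I r) :=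
  IsLocalization.Away.lift_eq _ _ _

theorem pr_res (f : Fin n → R) (I : Ideal R) {s t : Finset (Fin n)} (h : s ⊆ t) (z : CLoc f s) :
    pr f I t (res f h z) = res (fb f I) h (pr f I s z) := by
  have : (pr f I t).comp (res f h) = (res (fb f I) h).comp (pr f I s) := by
    apply IsLocalization.ringHom_ext (Submonoid.powers (∏ j ∈ s, f j))
    ext r
    simp only [RingHom.comp_apply, res_algebraMap, pr_algebraMap]
  exact congrArg (fun g => g z) this

theorem pr_surj (f : Fin n → R) (I : Ideal R) (s : Finset (Fin n)) :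
    Function.Surjective (pr f I s) := by
  intro z
  obtain ⟨k, r', e⟩ := IsLocalization.Away.surj (∏ j ∈ s, fb f I j) z
  obtain ⟨r, rfl⟩ := Ideal.Quotient.mk_surjective r'
  have hu : IsUnit (algebraMap R (CLoc f s) (∏ i ∈ s, f i) ^ k) :=
    (IsLocalization.Away.algebraMap_isUnit _).pow k
  obtain ⟨v, hv⟩ := hu
  refine ⟨algebraMap R _ r * ((v⁻¹ : (CLoc f s)ˣ) : CLoc f s), ?_⟩
  have hu' : IsUnit (algebraMap (R ⧸ I) (CLoc (fb f I) s) (∏ i ∈ s, fb f I i) ^ k) :=
    (IsLocalization.Away.algebraMap_isUnit _).pow k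
  apply hu'.mul_right_cancel
  rw [e, map_mul, pr_algebraMap]
  have e2 : pr f I s ((v⁻¹ : (CLoc f s)ˣ) : CLoc f s) *
      algebraMap (R ⧸ I) (CLoc (fb f I) s) (∏ i ∈ s, fb f I i) ^ k = 1 := by
    rw [fb_prod, ← pr_algebraMap, ← map_pow, ← hv, ← map_mul, Units.inv_mul, map_one]
  rw [mul_assoc, e2, mul_one]

theorem pr_eq_zero (f : Fin n → R) (I : Ideal R) (s : Finset (Fin n)) (z : CLoc f s) :
    pr f I s z = 0 ↔ z ∈ I.map (algebraMap R (CLoc f s)) := by
  obtain ⟨k, r, e⟩ := IsLocalization.Away.surj (∏ i ∈ s, f i) z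
  have hu : IsUnit (algebraMap R (CLoc f s) (∏ i ∈ s, f i) ^ k) :=
    (IsLocalization.Away.algebraMap_isUnit _).pow k
  rw [← Ideal.mul_unit_mem_iff_mem _ hu, e, mem_map_iff, ← (hu.map (pr f I s)).mul_left_eq_zero,
    ← map_mul, e, pr_algebraMap]
  have h1 : algebraMap (R ⧸ I) (CLoc (fb f I) s) (Ideal.Quotient.mk I r) = 0 ↔
      algebraMap (R ⧸ I) (CLoc (fb f I) s) (Ideal.Quotient.mk I r) ∈
        (⊥ : Ideal (R ⧸ I)).map (algebraMap (R ⧸ I) (CLoc (fb f I) s)) := by
    rw [Ideal.map_bot, Ideal.mem_bot]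
  rw [h1, mem_map_iff]
  constructor
  · rintro ⟨N, hN⟩
    refine ⟨N, ?_⟩
    rw [fb_prod, ← map_pow, ← map_mul, Ideal.mem_bot, Ideal.Quotient.eq_zero_iff_mem] at hN
    exact hN
  · rintro ⟨N, hN⟩
    refine ⟨N, ?_⟩
    rw [fb_prod, ← map_pow, ← map_mul, Ideal.mem_bot, Ideal.Quotient.eq_zero_iff_mem]
    exact hN

/-- the map of cochains -/
noncomputable def PR (f : Fin n → R) (I : Ideal R) (c : Cochain f) : Cochain (fb f I) :=
  fun s => pr f I s (c s)

theorem PR_add (f : Fin n → R) (I : Ideal R) (c c' : Cochain f) :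
    PR f I (c + c') = PR f I c + PR f I c' := funext fun s => map_add (pr f I s) _ _

theorem PR_sub (f : Fin n → R) (I : Ideal R) (c c' : Cochain f) :
    PR f I (c - c') = PR f I c - PR f I c' := funext fun s => map_sub (pr f I s) _ _

theorem PR_zero (f : Fin n → R) (I : Ideal R) : PR f I (0 : Cochain f) = 0 :=
  funext fun s => map_zero (pr f I s)

theorem PR_smul (f : Fin n → R) (I : Ideal R) (r : R) (c : Cochain f) :
    PR f I (r • c) = Ideal.Quotient.mk I r • PR f I c := by
  funext s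
  show pr f I s (r • c s) = Ideal.Quotient.mk I r • pr f I s (c s)
  rw [Algebra.smul_def, map_mul, pr_algebraMap, ← Algebra.smul_def]

theorem PR_dif (f : Fin n → R) (I : Ideal R) (c : Cochain f) :
    PR f I (dif f c) = dif (fb f I) (PR f I c) := by
  funext t
  show pr f I t (∑ j ∈ t, (-1) ^ (#{l ∈ t | l < j}) * res f (t.erase_subset j) (c (t.erase j))) =
    ∑ j ∈ t, (-1) ^ (#{l ∈ t | l < j}) * res (fb f I) (t.erase_subset j) (pr f I _ (c (t.erase j)))
  rw [map_sum]
  refine Finset.sum_congr rfl (fun j _ => ?_)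
  rw [map_mul, map_pow, map_neg, map_one, pr_res]

theorem PR_eq_zero (f : Fin n → R) (I : Ideal R) (c : Cochain f) :
    PR f I c = 0 ↔ c ∈ IC f I := by
  constructor
  · intro h s
    exact (pr_eq_zero f I s (c s)).mp (congrFun h s)
  · intro h
    exact funext fun s => (pr_eq_zero f I s (c s)).mpr (h s)

theorem PR_deg (f : Fin n → R) (I : Ideal R) {i : ℕ} {c : Cochain f} (hc : c ∈ deg f i) :
    PR f I c ∈ deg (fb f I) i := fun s hs => by
  show pr f I s (c s) = 0
  rw [hc s hs, map_zero]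

theorem PR_surj (f : Fin n → R) (I : Ideal R) {i : ℕ} {c : Cochain (fb f I)}
    (hc : c ∈ deg (fb f I) i) : ∃ d ∈ deg f i, PR f I d = c := by
  classical
  choose g hg using pr_surj f I
  refine ⟨fun s => if s.card = i then g s (c s) else 0, ?_, ?_⟩
  · intro s hs
    exact if_neg hs
  · funext s
    show pr f I s (if s.card = i then g s (c s) else 0) = c s
    by_cases hs : s.card = i
    · rw [if_pos hs, hg]
    · rw [if_neg hs, map_zero, hc s hs]

theorem PR_Zs (f : Fin n → R) (I : Ideal R) {i : ℕ} {c : Cochain f} (hc : c ∈ deg f i) :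
    PR f I c ∈ cocycles (fb f I) i ↔ c ∈ Zs f I i := by
  constructor
  · intro h
    refine ⟨hc, ?_⟩
    show dif f c ∈ IC f I
    rw [← PR_eq_zero, PR_dif]
    exact h.2
  · intro h
    refine ⟨PR_deg f I hc, ?_⟩
    show dif (fb f I) (PR f I c) = 0
    rw [← PR_dif, PR_eq_zero]
    exact h.2

theorem PR_Bs (f : Fin n → R) (I : Ideal R) {i : ℕ} {c : Cochain f} (hc : c ∈ deg f i) :
    PR f I c ∈ coboundaries (fb f I) i ↔ c ∈ Bs f I i := by
  cases i with
  | zero =>
    constructor
    · intro h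
      have h1 : PR f I c = 0 := h
      exact ⟨(PR_eq_zero f I c).mp h1, hc⟩
    · intro h
      show PR f I c ∈ (⊥ : Submodule (R ⧸ I) (Cochain (fb f I)))
      rw [Submodule.mem_bot]
      exact (PR_eq_zero f I c).mpr h.1
  | succ i =>
    constructor
    · rintro ⟨b, hb, e⟩
      obtain ⟨d, hd, rfl⟩ := PR_surj f I hb
      rw [← PR_dif] at e
      have h1 : c - dif f d ∈ IC f I := by
        rw [← PR_eq_zero, PR_sub, e, sub_self]
      have h2 := Submodule.add_mem _ (IC_le_Bs f I (i + 1) ⟨h1, Submodule.sub_mem _ hc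
        (dif_deg f hd)⟩) (dif_mem_Bs f I hd)
      rwa [sub_add_cancel] at h2
    · intro h
      obtain ⟨_, ⟨w, hw, rfl⟩, v, hv, rfl⟩ := Submodule.mem_sup.mp h
      refine ⟨PR f I w, PR_deg f I hw, ?_⟩
      rw [PR_add, (PR_eq_zero f I v).mpr hv.1, add_zero, PR_dif]

variable (p : ℕ) [hp : Fact p.Prime] [CharP R p]

theorem PR_frob (f : Fin n → R) (I : Ideal R) [CharP (R ⧸ I) p] (c : Cochain f) :
    PR f I (frobC p f c) = frobC p (fb f I) (PR f I c) := by
  funext s
  exact map_pow (pr f I s) _ _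

/-- class in the cohomology of `R / I` -/
noncomputable def clq (f : Fin n → R) (I : Ideal R) (i : ℕ) (c : Cochain f) (hc : c ∈ Zs f I i) :
    CechH (fb f I) i :=
  Submodule.Quotient.mk (p := cobZ (fb f I) i)
    (⟨PR f I c, (PR_Zs f I hc.1).mpr hc⟩ : cocycles (fb f I) i)

omit [CharP R p] hp in
theorem clq_surj (f : Fin n → R) (I : Ideal R) (i : ℕ) (z : CechH (fb f I) i) :
    ∃ c hc, clq f I i c hc = z := by
  obtain ⟨c, rfl⟩ := Submodule.Quotient.mk_surjective _ z
  obtain ⟨d, hd, e⟩ := PR_surj f I c.2.1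
  have h1 : d ∈ Zs f I i := (PR_Zs f I hd).mp (by rw [e]; exact c.2)
  refine ⟨d, h1, ?_⟩
  show Submodule.Quotient.mk _ = Submodule.Quotient.mk _
  congr 1
  exact Subtype.ext e

omit [CharP R p] hp in
theorem clq_eq (f : Fin n → R) (I : Ideal R) (i : ℕ) {c c' : Cochain f} (hc : c ∈ Zs f I i)
    (hc' : c' ∈ Zs f I i) : clq f I i c hc = clq f I i c' hc' ↔ c - c' ∈ Bs f I i := by
  rw [← PR_Bs f I (Submodule.sub_mem _ hc.1 hc'.1), PR_sub]
  constructor
  · intro h
    have h1 := (Submodule.Quotient.eq (cobZ (fb f I) i)).mp h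
    exact h1
  · intro h
    exact (Submodule.Quotient.eq (cobZ (fb f I) i)).mpr h

theorem ffull_iff (f : Fin n → R) (I : Ideal R) [CharP (R ⧸ I) p] (i : ℕ) :
    Submodule.span (R ⧸ I) (Set.range (frobH p (fb f I) i)) = ⊤ ↔ FFe p f I i := by
  constructor
  · intro h
    have key : ∀ z ∈ Submodule.span (R ⧸ I) (Set.range (frobH p (fb f I) i)),
        ∃ c ∈ Submodule.span R (frobC p f '' (Zs f I i : Set (Cochain f))), ∃ hc,
          clq f I i c hc = z := by
      intro z hz
      refine Submodule.span_induction ?_ ?_ ?_ ?_ hz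
      · rintro _ ⟨w, rfl⟩
        obtain ⟨c, hc, rfl⟩ := clq_surj f I i w
        refine ⟨frobC p f c, Submodule.subset_span ⟨c, hc, rfl⟩, frobC_Zs' p f hc, ?_⟩
        show Submodule.Quotient.mk _ = Submodule.Quotient.mk _
        congr 1
        exact Subtype.ext (PR_frob p f I c)
      · refine ⟨0, Submodule.zero_mem _, Submodule.zero_mem _, ?_⟩
        refine (Submodule.Quotient.mk_eq_zero _).mpr ?_
        show PR f I 0 ∈ coboundaries (fb f I) i
        rw [PR_zero]
        exact Submodule.zero_mem _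
      · rintro a b _ _ ⟨c, h1, h2, rfl⟩ ⟨c', h1', h2', rfl⟩
        refine ⟨c + c', Submodule.add_mem _ h1 h1', Submodule.add_mem _ h2 h2', ?_⟩
        show Submodule.Quotient.mk _ = Submodule.Quotient.mk _
        congr 1
        exact Subtype.ext (PR_add f I c c')
      · rintro r a _ ⟨c, h1, h2, rfl⟩
        obtain ⟨r, rfl⟩ := Ideal.Quotient.mk_surjective r
        refine ⟨r • c, Submodule.smul_mem _ _ h1, Submodule.smul_mem _ _ h2, ?_⟩
        show Submodule.Quotient.mk _ = Submodule.Quotient.mk _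
        congr 1
        exact Subtype.ext (PR_smul f I r c)
    intro c hc
    obtain ⟨d, hd, hdZ, e⟩ := key (clq f I i c hc) (by rw [h]; exact Submodule.mem_top)
    rw [eq_comm, clq_eq] at e
    have e1 : d - c ∈ Bs f I i ∨ c - d ∈ Bs f I i := Or.inl (by
      first
        | exact e
        | exact (Submodule.neg_mem_iff _).mp (by rw [neg_sub]; exact e))
    have e2 : c - d ∈ Bs f I i := by
      rcases e1 with h1 | h1
      · rw [← neg_sub]; exact Submodule.neg_mem _ h1
      · exact h1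
    have h3 : c = d + (c - d) := by abel
    rw [h3]
    exact Submodule.add_mem _ (Submodule.mem_sup_left hd) (Submodule.mem_sup_right e2)
  · intro h
    rw [eq_top_iff]
    intro z _
    obtain ⟨c, hc, rfl⟩ := clq_surj f I i z
    obtain ⟨c1, hc1, c2, hc2, rfl⟩ := Submodule.mem_sup.mp (h hc)
    have hc2Z := Bs_le_Zs f I i hc2
    have h1 : ∃ hc1Z : c1 ∈ Zs f I i, clq f I i c1 hc1Z ∈
        Submodule.span (R ⧸ I) (Set.range (frobH p (fb f I) i)) := by
      refine Submodule.span_induction ?_ ?_ ?_ ?_ hc1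
      · rintro _ ⟨w, hw, rfl⟩
        refine ⟨frobC_Zs' p f hw, Submodule.subset_span ⟨clq f I i w hw, ?_⟩⟩
        show Submodule.Quotient.mk _ = Submodule.Quotient.mk _
        congr 1
        exact Subtype.ext (PR_frob p f I w).symm
      · refine ⟨Submodule.zero_mem _, ?_⟩
        have : clq f I i 0 (Submodule.zero_mem _) = 0 := by
          refine (Submodule.Quotient.mk_eq_zero _).mpr ?_
          show PR f I 0 ∈ coboundaries (fb f I) i
          rw [PR_zero]
          exact Submodule.zero_mem _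
        rw [this]
        exact Submodule.zero_mem _
      · rintro a b _ _ ⟨ha, ha'⟩ ⟨hb, hb'⟩
        refine ⟨Submodule.add_mem _ ha hb, ?_⟩
        have : clq f I i (a + b) (Submodule.add_mem _ ha hb) = clq f I i a ha + clq f I i b hb := by
          show Submodule.Quotient.mk _ = Submodule.Quotient.mk _
          congr 1
          exact Subtype.ext (PR_add f I a b)
        rw [this]
        exact Submodule.add_mem _ ha' hb'
      · rintro r a _ ⟨ha, ha'⟩
        refine ⟨Submodule.smul_mem _ _ ha, ?_⟩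
        have : clq f I i (r • a) (Submodule.smul_mem _ _ ha) =
            Ideal.Quotient.mk I r • clq f I i a ha := by
          show Submodule.Quotient.mk _ = Submodule.Quotient.mk _
          congr 1
          exact Subtype.ext (PR_smul f I r a)
        rw [this]
        exact Submodule.smul_mem _ _ ha'
    obtain ⟨hc1Z, h2⟩ := h1
    have h3 : clq f I i (c1 + c2) hc = clq f I i c1 hc1Z := by
      rw [clq_eq, add_sub_cancel_left]
      exact hc2
    rw [h3]
    exact h2

end Pool.Agent.R688.FF
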