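import Pool.Agent.R688.FF.B
import Pool.Agent.R688.FF.C

/-! FF-D (helper711): base change of Artinian modules. -/

set_option autoImplicit false

namespace Pool.Agent.R688.FF

open TensorProduct

universe u v

namespace Daux

variable {R : Type u} {S : Type u} [CommRing R] [CommRing S] [Algebra R S]

theorem surj {A B : Type u} [AddCommGroup A] [Module R A] [AddCommGroup B] [Module R B]
    (f : A →ₗ[R] B) (hf : Function.Surjective f) (h : IsArtinian S (S ⊗[R] A)) :
    IsArtinian S (S ⊗[R] B) :=
  isArtinian_of_surjective (S ⊗[R] A) (f.baseChange S) (LinearMap.lTensor_surjective S hf)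

theorem ext_of_sub {A : Type u} [AddCommGroup A] [Module R A] (N : Submodule R A)
    (h1 : IsArtinian S (S ⊗[R] N)) (h2 : IsArtinian S (S ⊗[R] (A ⧸ N))) :
    IsArtinian S (S ⊗[R] A) := by
  apply isArtinian_of_range_eq_ker (N.subtype.baseChange S) (N.mkQ.baseChange S)
  have hex : Function.Exact (N.subtype.lTensor S) (N.mkQ.lTensor S) := by
    apply lTensor_exact
    · intro x
      rw [Submodule.mkQ_apply, Submodule.Quotient.mk_eq_zero]
      constructor
      · intro h; exact ⟨⟨x, h⟩, rfl⟩
      · rintro ⟨z, rfl⟩; exact z.2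
    · exact N.mkQ_surjective
  ext x
  rw [LinearMap.mem_range, LinearMap.mem_ker]
  exact (hex x).symm

theorem fg_of_killed [IsLocalRing R] {A : Type u} [AddCommGroup A] [Module R A] [IsArtinian R A]
    (h : ∀ z ∈ IsLocalRing.maximalIdeal R, ∀ a : A, z • a = 0) : Module.Finite R A := by
  have ht : Module.IsTorsionBySet R A (IsLocalRing.maximalIdeal R : Set R) := by
    rintro a ⟨z, hz⟩
    exact h z hz a
  letI : Module (R ⧸ IsLocalRing.maximalIdeal R) A := ht.module
  haveI : IsScalarTower R (R ⧸ IsLocalRing.maximalIdeal R) A := ht.isScalarTower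
  haveI hA : IsArtinian (R ⧸ IsLocalRing.maximalIdeal R) A := isArtinian_of_tower R inferInstance
  haveI hss : IsSemisimpleRing (R ⧸ IsLocalRing.maximalIdeal R) := by
    letI := Ideal.Quotient.field (IsLocalRing.maximalIdeal R)
    infer_instance
  haveI : Module.Finite (R ⧸ IsLocalRing.maximalIdeal R) A :=
    (IsSemisimpleModule.finite_tfae.out 2 0).mp hA
  exact Module.Finite.trans (R ⧸ IsLocalRing.maximalIdeal R) A

theorem killed_tensor {A : Type u} [AddCommGroup A] [Module R A] (r : R) (h : ∀ a : A, r • a = 0)
    (x : S ⊗[R] A) : algebraMap R S r • x = 0 := by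
  induction x using TensorProduct.induction_on with
  | zero => rw [smul_zero]
  | tmul s a =>
    rw [algebraMap_smul, ← TensorProduct.tmul_smul, h, TensorProduct.tmul_zero]
  | add x y hx hy => rw [smul_add, hx, hy, add_zero]

theorem base [IsNoetherianRing R] [IsLocalRing R] [IsNoetherianRing S] [IsLocalRing S]
    (n : ℕ) (hS : (IsLocalRing.maximalIdeal S) ^ n ≤
      (IsLocalRing.maximalIdeal R).map (algebraMap R S))
    {A : Type u} [AddCommGroup A] [Module R A] [IsArtinian R A]
    (h : ∀ z ∈ IsLocalRing.maximalIdeal R, ∀ a : A, z • a = 0) : IsArtinian S (S ⊗[R] A) := by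
  haveI := fg_of_killed h
  apply artinian_of_fg n
  intro z hz x
  have hz' := hS hz
  have hle : (IsLocalRing.maximalIdeal R).map (algebraMap R S) ≤
      Module.annihilator S (S ⊗[R] A) := by
    rw [Ideal.map_le_iff_le_comap]
    intro r hr
    rw [Ideal.mem_comap, Module.mem_annihilator]
    exact fun m => killed_tensor r (h r hr) m
  exact Module.mem_annihilator.1 (hle hz') x

theorem subsing {A : Type u} [AddCommGroup A] [Module R A] (h : ∀ a : A, a = 0) :
    IsArtinian S (S ⊗[R] A) := by
  haveI : Subsingleton A := ⟨fun a b => by rw [h a, h b]⟩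
  haveI : Subsingleton (S ⊗[R] A) := by
    constructor
    have : ∀ x : S ⊗[R] A, x = 0 := by
      intro x
      induction x using TensorProduct.induction_on with
      | zero => rfl
      | tmul s a => rw [h a, TensorProduct.tmul_zero]
      | add x y hx hy => rw [hx, hy, add_zero]
    intro a b
    rw [this a, this b]
  infer_instance

/-- the statement for modules killed by the elements of `G` outside of `T` -/
def Q (R S : Type u) [CommRing R] [CommRing S] [Algebra R S] (G T : Set R) : Prop :=
  ∀ (A : Type u) [AddCommGroup A] [Module R A] [IsArtinian R A],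
    (∀ g ∈ G, g ∉ T → ∀ a : A, g • a = 0) → IsArtinian S (S ⊗[R] A)

/-- case (i): killed by a power of `y` -/
theorem case1 {G T : Set R} {y : R} (hQ : Q R S G T) (k : ℕ) :
    ∀ (A : Type u) [AddCommGroup A] [Module R A] [IsArtinian R A],
    (∀ g ∈ G, g ∉ insert y T → ∀ a : A, g • a = 0) → (∀ a : A, y ^ k • a = 0) →
    IsArtinian S (S ⊗[R] A) := by
  induction k with
  | zero =>
    intro A _ _ _ _ h
    apply subsing
    intro a
    have := h a
    rwa [pow_zero, one_smul] at this
  | succ k ih =>
    intro A _ _ _ hG h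
    let N : Submodule R A := LinearMap.range (LinearMap.lsmul R A y)
    apply ext_of_sub N
    · apply ih
      · rintro g hg hgT ⟨a, ha⟩
        apply Subtype.ext
        exact hG g hg hgT a
      · rintro ⟨_, b, rfl⟩
        apply Subtype.ext
        show y ^ k • (y • b) = 0
        rw [smul_smul, ← pow_succ]
        exact h b
    · apply hQ
      intro g hg hgT a
      obtain ⟨a, rfl⟩ := N.mkQ_surjective a
      rw [← map_smul, Submodule.mkQ_apply, Submodule.Quotient.mk_eq_zero]
      by_cases hy : g = y
      · rw [hy]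
        exact ⟨a, rfl⟩
      · rw [hG g hg (by
          rintro (h1 | h1)
          · exact hy h1
          · exact hgT h1) a]
        exact N.zero_mem

/-- case (ii): `y` acts surjectively -/
theorem case2 [IsNoetherianRing R] [IsLocalRing R] {G T : Set R} {y : R}
    (hy : y ∈ IsLocalRing.maximalIdeal R) (hQ : Q R S G T)
    (A : Type u) [AddCommGroup A] [Module R A] [IsArtinian R A]
    (hG : ∀ g ∈ G, g ∉ insert y T → ∀ a : A, g • a = 0) (hs : ∀ a : A, ∃ b : A, y • b = a) :
    IsArtinian S (S ⊗[R] A) := by
  let K : Submodule R A := LinearMap.ker (LinearMap.lsmul R A y)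
  have hK : IsArtinian S (S ⊗[R] K) := by
    apply case1 hQ 1 K
    · rintro g hg hgT ⟨a, ha⟩
      apply Subtype.ext
      exact hG g hg hgT a
    · rintro ⟨a, ha⟩
      apply Subtype.ext
      show y ^ 1 • a = 0
      rw [pow_one]
      exact ha
  let B : Submodule S (S ⊗[R] A) := LinearMap.range (K.subtype.baseChange S)
  haveI : IsArtinian S B := isArtinian_of_surjective (S ⊗[R] K)
    (LinearMap.rangeRestrict (K.subtype.baseChange S)) (LinearMap.surjective_rangeRestrict _)
  have hex : Function.Exact (K.subtype.lTensor S) ((LinearMap.lsmul R A y).lTensor S) := by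
    apply lTensor_exact
    · intro x
      constructor
      · intro h; exact ⟨⟨x, h⟩, rfl⟩
      · rintro ⟨z, rfl⟩; exact z.2
    · exact hs
  have hmul : ∀ x : S ⊗[R] A, (LinearMap.lsmul R A y).lTensor S x = algebraMap R S y • x := by
    intro x
    induction x using TensorProduct.induction_on with
    | zero => rw [map_zero, smul_zero]
    | tmul s a =>
      rw [LinearMap.lTensor_tmul, algebraMap_smul, ← TensorProduct.tmul_smul]
      rfl
    | add x y hx hy => rw [map_add, hx, hy, smul_add]
  apply artinian_of_torsion (algebraMap R S y) B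
  · intro x hx
    rw [← hmul] at hx
    exact (hex x).1 hx
  · intro x
    induction x using TensorProduct.induction_on with
    | zero => exact ⟨0, smul_zero _⟩
    | tmul s a =>
      obtain ⟨n, hn⟩ := torsion_of_artinian (R := R) a
      refine ⟨n, ?_⟩
      rw [← map_pow, algebraMap_smul, ← TensorProduct.tmul_smul,
        hn _ (Ideal.pow_mem_pow hy n), TensorProduct.tmul_zero]
    | add x z hx hz =>
      obtain ⟨n, hn⟩ := hx
      obtain ⟨m, hm⟩ := hz
      refine ⟨n + m, ?_⟩
      rw [smul_add, pow_add]
      have e1 : (algebraMap R S y ^ n * algebraMap R S y ^ m) • x = 0 := by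
        rw [mul_comm, mul_smul, hn, smul_zero]
      have e2 : (algebraMap R S y ^ n * algebraMap R S y ^ m) • z = 0 := by
        rw [mul_smul, hm, smul_zero]
      rw [e1, e2, add_zero]

/-- case (iii) -/
theorem case3 [IsNoetherianRing R] [IsLocalRing R] {G T : Set R} {y : R}
    (hy : y ∈ IsLocalRing.maximalIdeal R) (hQ : Q R S G T) : Q R S G (insert y T) := by
  intro A _ _ _ hG
  let g : ℕ →o (Submodule R A)ᵒᵈ :=
    { toFun := fun k => OrderDual.toDual (LinearMap.range (LinearMap.lsmul R A (y ^ k)))
      monotone' := by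
        intro a b hab
        show LinearMap.range (LinearMap.lsmul R A (y ^ b)) ≤
          LinearMap.range (LinearMap.lsmul R A (y ^ a))
        rintro _ ⟨x, rfl⟩
        refine ⟨y ^ (b - a) • x, ?_⟩
        show y ^ a • y ^ (b - a) • x = y ^ b • x
        rw [smul_smul, ← pow_add, Nat.add_sub_cancel' hab] }
  obtain ⟨n, hn⟩ := IsArtinian.monotone_stabilizes g
  have hn' : ∀ m, n ≤ m → ∀ x : A, ∃ z : A, y ^ m • z = y ^ n • x := by
    intro m hm x
    have h1 : LinearMap.range (LinearMap.lsmul R A (y ^ n)) =
      LinearMap.range (LinearMap.lsmul R A (y ^ m)) := hn m hm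
    have h2 : y ^ n • x ∈ LinearMap.range (LinearMap.lsmul R A (y ^ n)) := ⟨x, rfl⟩
    rw [h1] at h2
    exact h2
  let B : Submodule R A := LinearMap.range (LinearMap.lsmul R A (y ^ n))
  let C : Submodule R A := LinearMap.ker (LinearMap.lsmul R A (y ^ n))
  have hB : IsArtinian S (S ⊗[R] B) := by
    apply case2 hy hQ B
    · rintro g hg hgT ⟨a, ha⟩
      apply Subtype.ext
      exact hG g hg hgT a
    · rintro ⟨_, x, rfl⟩
      obtain ⟨z, hz⟩ := hn' (n + 1) (Nat.le_succ n) x
      refine ⟨⟨y ^ n • z, z, rfl⟩, ?_⟩
      apply Subtype.ext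
      show y • y ^ n • z = y ^ n • x
      rw [smul_smul, ← pow_succ']
      exact hz
  have hC : IsArtinian S (S ⊗[R] C) := by
    apply case1 hQ n C
    · rintro g hg hgT ⟨a, ha⟩
      apply Subtype.ext
      exact hG g hg hgT a
    · rintro ⟨a, ha⟩
      apply Subtype.ext
      exact ha
  apply ext_of_sub B hB
  apply surj (B.mkQ.comp C.subtype) _ hC
  intro q
  obtain ⟨a, rfl⟩ := B.mkQ_surjective q
  obtain ⟨z, hz⟩ := hn' (n + n) (Nat.le_add_left n n) a
  refine ⟨⟨a - y ^ n • z, ?_⟩, ?_⟩
  · show y ^ n • (a - y ^ n • z) = 0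
    rw [smul_sub, smul_smul, ← pow_add, hz, sub_self]
  · show B.mkQ (a - y ^ n • z) = B.mkQ a
    rw [map_sub, sub_eq_self, Submodule.mkQ_apply, Submodule.Quotient.mk_eq_zero]
    exact ⟨z, rfl⟩

end Daux

open Daux in
/-- FF-D: base change of Artinian modules -/
theorem artinian_baseChange {R : Type u} {S : Type u} [CommRing R] [IsNoetherianRing R]
    [IsLocalRing R] [CommRing S] [IsNoetherianRing S] [IsLocalRing S] [Algebra R S]
    (n : ℕ) (hS : (IsLocalRing.maximalIdeal S) ^ n ≤
      (IsLocalRing.maximalIdeal R).map (algebraMap R S))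
    (A : Type u) [AddCommGroup A] [Module R A] [IsArtinian R A] :
    IsArtinian S (S ⊗[R] A) := by
  classical
  obtain ⟨G, hG⟩ := IsNoetherian.noetherian (IsLocalRing.maximalIdeal R)
  have hGm : ∀ g ∈ G, g ∈ IsLocalRing.maximalIdeal R := by
    intro g hg
    rw [← hG]
    exact Ideal.subset_span hg
  have key : ∀ T : Finset R, T ⊆ G → Q R S (G : Set R) (T : Set R) := by
    intro T
    induction T using Finset.induction_on with
    | empty =>
      intro _ A _ _ _ h
      apply base n hS
      intro z hz
      have hle : IsLocalRing.maximalIdeal R ≤ Module.annihilator R A := by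
        rw [← hG]
        apply Ideal.span_le.2
        intro g hg
        rw [SetLike.mem_coe, Module.mem_annihilator]
        exact h g hg (by simp)
      exact fun a => Module.mem_annihilator.1 (hle hz) a
    | insert y T _ ih =>
      intro hT
      rw [Finset.coe_insert]
      exact case3 (hGm y (hT (Finset.mem_insert_self y T)))
        (ih (fun z hz => hT (Finset.mem_insert_of_mem hz)))
  exact key G (Finset.Subset.refl G) A (fun g hg hg' => absurd hg hg')

end Pool.Agent.R688.FF
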