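import Pool.Agent.R688.FF.C

/-! # FF-E: stability of the criterion for F-fullness -/

namespace Pool.Agent.R688.FF
open TensorProduct

universe u v w

namespace E

/-- `R`, to be seen as an `R`-algebra through the Frobenius -/
def Fr (R : Type u) (_p : ℕ) : Type u := R

instance (R : Type u) [CommRing R] (p : ℕ) : CommRing (Fr R p) := inferInstanceAs (CommRing R)
instance (R : Type u) [CommRing R] [h : IsNoetherianRing R] (p : ℕ) : IsNoetherianRing (Fr R p) :=
  h
instance (R : Type u) [CommRing R] [h : IsLocalRing R] (p : ℕ) : IsLocalRing (Fr R p) := h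

instance (R : Type u) [CommRing R] (p : ℕ) [Fact p.Prime] [CharP R p] : Algebra R (Fr R p) :=
  RingHom.toAlgebra (S := Fr R p) (frobenius R p : R →+* R)

/-- the identity `R → Fr R p` -/
def toFr {R : Type u} [CommRing R] (p : ℕ) : R →+* Fr R p := RingHom.id R
/-- the identity `Fr R p → R` -/
def ofFr {R : Type u} [CommRing R] (p : ℕ) : Fr R p →+* R := RingHom.id R

variable {R : Type u} [CommRing R] (p : ℕ) [Fact p.Prime] [CharP R p]

theorem smul_Fr (r : R) (s : Fr R p) : r • s = toFr p (r ^ p) * s := rfl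

omit [Fact p.Prime] [CharP R p] in
theorem toFr_ofFr (s : Fr R p) : toFr p (ofFr p s) = s := rfl

variable {H : Type u} [AddCommGroup H] [Module R H] (F : H →ₛₗ[frobenius R p] H)

/-- the linearisation of the Frobenius action -/
noncomputable def theta : Fr R p ⊗[R] H →+ H :=
  TensorProduct.liftAddHom
    (AddMonoidHom.mk' (fun s => AddMonoidHom.mk' (fun h => ofFr p s • F h)
      (fun a b => by rw [map_add, smul_add]))
      (fun s t => by
        ext h
        simp [add_smul]))
    (fun r s h => by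
      simp only [AddMonoidHom.mk'_apply]
      rw [smul_Fr, map_mul, F.map_smulₛₗ, smul_smul]
      congr 1
      rw [mul_comm]
      rfl)

theorem theta_tmul (s : Fr R p) (h : H) : theta p F (s ⊗ₜ[R] h) = ofFr p s • F h := rfl

theorem theta_smul (s : Fr R p) (t : Fr R p ⊗[R] H) :
    theta p F (s • t) = ofFr p s • theta p F t := by
  induction t with
  | zero => simp
  | tmul a h =>
    rw [TensorProduct.smul_tmul', theta_tmul, theta_tmul, smul_eq_mul, map_mul, mul_smul]
  | add a b ha hb => rw [smul_add, map_add, ha, hb, map_add, smul_add]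

/-- the kernel of `theta` -/
noncomputable def K : Submodule (Fr R p) (Fr R p ⊗[R] H) where
  carrier := {t | theta p F t = 0}
  zero_mem' := map_zero _
  add_mem' := by
    intro a b ha hb
    show theta p F (a + b) = 0
    rw [map_add, show theta p F a = 0 from ha, show theta p F b = 0 from hb, add_zero]
  smul_mem' := by
    intro s a ha
    show theta p F (s • a) = 0
    rw [theta_smul, show theta p F a = 0 from ha, smul_zero]

/-- the span of the Frobenius images of the elements killed by `y` -/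
def G (y : R) : Submodule R H := Submodule.span R {z : H | ∃ b : H, y • b = 0 ∧ z = F b}

theorem pow_smul_tmul (y : R) (s : Fr R p) (h : H) :
    toFr p (y ^ p) • (s ⊗ₜ[R] h) = s ⊗ₜ[R] (y • h) := by
  rw [← TensorProduct.smul_tmul, TensorProduct.smul_tmul', smul_Fr, smul_eq_mul]

/-- elements killed by `y^p` come from elements killed by `y` -/
theorem theta_mem_G (y : R) (hy : ∀ a : H, ∃ b : H, y • b = a) (g : Fr R p ⊗[R] H)
    (hg : toFr p (y ^ p) • g = 0) : theta p F g ∈ G p F y := by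
  set m : H →ₗ[R] H := LinearMap.lsmul R H y with hm
  have hex : Function.Exact (LinearMap.ker m).subtype m := by
    intro a
    constructor
    · intro ha
      exact ⟨⟨a, ha⟩, rfl⟩
    · rintro ⟨a, rfl⟩
      exact a.2
  have hsur : Function.Surjective m := fun a => by
    obtain ⟨b, hb⟩ := hy a
    exact ⟨b, hb⟩
  have hex' := lTensor_exact (Fr R p) hex hsur
  have h0 : ∀ t : Fr R p ⊗[R] H, m.lTensor (Fr R p) t = toFr p (y ^ p) • t := by
    intro t
    induction t with
    | zero => simp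
    | tmul s h => rw [pow_smul_tmul]; rfl
    | add a b ha hb => rw [map_add, ha, hb, smul_add]
  obtain ⟨t, rfl⟩ := (hex' g).1 (by rw [h0, hg])
  clear hg
  induction t with
  | zero => simp
  | tmul s h =>
    rw [LinearMap.lTensor_tmul, theta_tmul]
    exact Submodule.smul_mem _ _ (Submodule.subset_span ⟨h.1, h.2, rfl⟩)
  | add a b ha hb => rw [map_add, map_add]; exact Submodule.add_mem _ ha hb

theorem surj_pow {A : Type v} [AddCommGroup A] [Module R A] (y : R)
    (hy : ∀ a : A, ∃ b : A, y • b = a) (n : ℕ) (a : A) : ∃ b : A, y ^ n • b = a := by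
  induction n generalizing a with
  | zero => exact ⟨a, by simp⟩
  | succ n ih =>
    obtain ⟨b, hb⟩ := ih a
    obtain ⟨c, hc⟩ := hy b
    exact ⟨c, by rw [pow_succ, mul_smul, hc, hb]⟩

theorem span_pow (y : R) (n : ℕ) (a : H)
    (ha : a ∈ Submodule.span R {z : H | ∃ b : H, y • b = 0 ∧ z = y ^ n • F b}) :
    ∃ g ∈ G p F y, a = y ^ n • g := by
  induction ha using Submodule.span_induction with
  | mem a ha =>
    obtain ⟨b, hb, rfl⟩ := ha
    exact ⟨F b, Submodule.subset_span ⟨b, hb, rfl⟩, rfl⟩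
  | zero => exact ⟨0, Submodule.zero_mem _, by simp⟩
  | add a b _ _ ha hb =>
    obtain ⟨g, hg, rfl⟩ := ha
    obtain ⟨g', hg', rfl⟩ := hb
    exact ⟨g + g', Submodule.add_mem _ hg hg', by rw [smul_add]⟩
  | smul r a _ ha =>
    obtain ⟨g, hg, rfl⟩ := ha
    exact ⟨r • g, Submodule.smul_mem _ _ hg, by rw [smul_comm]⟩

theorem pow_span (y : R) (n : ℕ) (g : H) (hg : g ∈ G p F y) :
    y ^ n • g ∈ Submodule.span R {z : H | ∃ b : H, y • b = 0 ∧ z = y ^ n • F b} := by
  induction hg using Submodule.span_induction with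
  | mem a ha =>
    obtain ⟨b, hb, rfl⟩ := ha
    exact Submodule.subset_span ⟨b, hb, rfl⟩
  | zero => simp
  | add a b _ _ ha hb => rw [smul_add]; exact Submodule.add_mem _ ha hb
  | smul r a _ ha => rw [smul_comm]; exact Submodule.smul_mem _ _ ha

theorem theta_surj (x : R) (htor : ∀ a : H, ∃ n : ℕ, x ^ n • a = 0)
    (hx : ∀ a : H, ∃ b : H, x • b = a)
    (hC : ∀ a : H, x • a = 0 →
      a ∈ Submodule.span R {z : H | ∃ b : H, x • b = 0 ∧ z = x ^ (p - 1) • F b}) (a : H) :
    ∃ t, theta p F t = a := by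
  -- the elements `x^n • theta t`
  have hkey : ∀ n : ℕ, ∀ a ∈ G p F x, ∃ t, x ^ (p - 1) • a = x ^ n • theta p F t := by
    intro n a ha
    induction ha using Submodule.span_induction with
    | mem a ha =>
      obtain ⟨b, hb, rfl⟩ := ha
      obtain ⟨b', rfl⟩ := surj_pow x hx n b
      refine ⟨toFr p (x ^ (p - 1 + p * n - n)) ⊗ₜ[R] b', ?_⟩
      rw [theta_tmul, F.map_smulₛₗ, smul_smul]
      have h1 : (frobenius R p) (x ^ n) = x ^ (p * n) := by
        rw [frobenius_def, ← pow_mul, mul_comm]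
      rw [h1, ← pow_add]
      show _ = x ^ n • (x ^ (p - 1 + p * n - n) • F b')
      rw [smul_smul, ← pow_add]
      congr 2
      have : n ≤ p * n := Nat.le_mul_of_pos_left n (Fact.out : p.Prime).pos
      omega
    | zero => exact ⟨0, by simp⟩
    | add a b _ _ ha hb =>
      obtain ⟨t, ht⟩ := ha
      obtain ⟨t', ht'⟩ := hb
      exact ⟨t + t', by rw [smul_add, ht, ht', map_add, smul_add]⟩
    | smul r a _ ha =>
      obtain ⟨t, ht⟩ := ha
      refine ⟨toFr p r • t, ?_⟩
      rw [smul_comm, ht, theta_smul, smul_comm]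
      rfl
  have hmain : ∀ n : ℕ, ∀ a : H, x ^ n • a = 0 → ∃ t, theta p F t = a := by
    intro n
    induction n with
    | zero => intro a ha; exact ⟨0, by simpa using ha.symm⟩
    | succ n ih =>
      intro a ha
      have h1 : x • (x ^ n • a) = 0 := by rw [smul_smul, ← pow_succ', ha]
      obtain ⟨g, hg, hg'⟩ := span_pow p F x (p - 1) _ (hC _ h1)
      obtain ⟨t, ht⟩ := hkey n g hg
      obtain ⟨t', ht'⟩ := ih (a - theta p F t) (by rw [smul_sub, hg', ht, sub_self])
      exact ⟨t' + t, by rw [map_add, ht']; abel⟩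
  obtain ⟨n, hn⟩ := htor a
  exact hmain n a hn

theorem G_of_pow (x : R)
    (hC : ∀ a : H, x • a = 0 →
      a ∈ Submodule.span R {z : H | ∃ b : H, x • b = 0 ∧ z = x ^ (p - 1) • F b}) :
    ∀ k ≤ p, ∀ a : H, x ^ k • a = 0 → a ∈ G p F x := by
  intro k
  induction k with
  | zero =>
    intro _ a ha
    have : a = 0 := by simpa using ha
    rw [this]; exact Submodule.zero_mem _
  | succ k ih =>
    intro hk a ha
    have h1 : x • (x ^ k • a) = 0 := by rw [smul_smul, ← pow_succ', ha]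
    obtain ⟨g, hg, hg'⟩ := span_pow p F x (p - 1) _ (hC _ h1)
    have h2 : x ^ k • (a - x ^ (p - 1 - k) • g) = 0 := by
      rw [smul_sub, hg', smul_smul, ← pow_add, show k + (p - 1 - k) = p - 1 by omega, sub_self]
    have h3 := ih (by omega) _ h2
    have h4 := Submodule.add_mem _ h3 (Submodule.smul_mem (G p F x) (x ^ (p - 1 - k)) hg)
    simpa using h4

theorem lift_G (x : R) (a : H) (ha : a ∈ G p F x) :
    ∃ t, toFr p (x ^ p) • t = 0 ∧ theta p F t = a := by
  induction ha using Submodule.span_induction with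
  | mem a ha =>
    obtain ⟨b, hb, rfl⟩ := ha
    refine ⟨(1 : Fr R p) ⊗ₜ[R] b, ?_, ?_⟩
    · rw [pow_smul_tmul, hb, TensorProduct.tmul_zero]
    · rw [theta_tmul, map_one, one_smul]
  | zero => exact ⟨0, by simp, by simp⟩
  | add a b _ _ ha hb =>
    obtain ⟨t, h1, h2⟩ := ha
    obtain ⟨t', h1', h2'⟩ := hb
    exact ⟨t + t', by rw [smul_add, h1, h1', add_zero], by rw [map_add, h2, h2']⟩
  | smul r a _ ha =>
    obtain ⟨t, h1, h2⟩ := ha
    refine ⟨toFr p r • t, by rw [smul_comm, h1, smul_zero], ?_⟩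
    rw [theta_smul, h2]
    rfl

theorem M_div (y : R) (hy : ∀ a : H, ∃ b : H, y • b = a) (g : Fr R p ⊗[R] H) :
    ∃ t, toFr p (y ^ p) • t = g := by
  induction g with
  | zero => exact ⟨0, by simp⟩
  | tmul s h =>
    obtain ⟨b, rfl⟩ := hy h
    exact ⟨s ⊗ₜ[R] b, pow_smul_tmul p y s b⟩
  | add a b ha hb =>
    obtain ⟨t, ht⟩ := ha
    obtain ⟨t', ht'⟩ := hb
    exact ⟨t + t', by rw [smul_add, ht, ht']⟩

theorem K_surj (x : R) (hx : ∀ a : H, ∃ b : H, x • b = a)
    (hC : ∀ a : H, x • a = 0 →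
      a ∈ Submodule.span R {z : H | ∃ b : H, x • b = 0 ∧ z = x ^ (p - 1) • F b})
    (k : K p F) : ∃ k' : K p F, toFr p x • k' = k := by
  obtain ⟨g, hg⟩ := M_div p x hx k.1
  have h1 : x ^ p • theta p F g = 0 := by
    have := theta_smul p F (toFr p (x ^ p)) g
    rw [hg] at this
    have h2 : theta p F k.1 = 0 := k.2
    rw [h2] at this
    exact this.symm
  obtain ⟨t, ht1, ht2⟩ := lift_G p F x _ (G_of_pow p F x hC p le_rfl _ h1)
  have h3 : g - t ∈ K p F := by
    show theta p F (g - t) = 0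
    rw [map_sub, ht2, sub_self]
  refine ⟨toFr p (x ^ (p - 1)) • ⟨g - t, h3⟩, ?_⟩
  apply Subtype.ext
  show toFr p x • (toFr p (x ^ (p - 1)) • (g - t)) = k.1
  rw [smul_smul, ← map_mul, ← pow_succ', Nat.sub_add_cancel (Fact.out : p.Prime).pos, smul_sub,
    ht1, sub_zero, hg]

theorem exists_pow [IsNoetherianRing R] [IsLocalRing R] :
    ∃ n : ℕ, (IsLocalRing.maximalIdeal (Fr R p)) ^ n ≤
      (IsLocalRing.maximalIdeal R).map (algebraMap R (Fr R p)) := by
  apply Ideal.exists_pow_le_of_le_radical_of_fg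
  · intro s hs
    refine ⟨p, ?_⟩
    have : s ^ p = algebraMap R (Fr R p) (ofFr p s) := rfl
    rw [this]
    exact Ideal.mem_map_of_mem _ hs
  · exact IsNoetherian.noetherian _

end E

open E in
/-- FF-E, with FF-A and FF-D as hypotheses -/
theorem stable_criterion_of
    (hA : ∀ {R : Type u} [CommRing R] [IsNoetherianRing R] [IsLocalRing R]
      {A : Type u} [AddCommGroup A] [Module R A] [IsArtinian R A] (x : R)
      (_ : ∀ a : A, ∃ b : A, x • b = a),
      ∃ N : ℕ, ∀ δ ∈ (IsLocalRing.maximalIdeal R) ^ N, ∀ a : A, ∃ b : A, (x + δ) • b = a)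
    (hD : ∀ {R : Type u} {S : Type u} [CommRing R] [IsNoetherianRing R]
      [IsLocalRing R] [CommRing S] [IsNoetherianRing S] [IsLocalRing S] [Algebra R S]
      (n : ℕ) (_ : (IsLocalRing.maximalIdeal S) ^ n ≤
        (IsLocalRing.maximalIdeal R).map (algebraMap R S))
      (A : Type u) [AddCommGroup A] [Module R A] [IsArtinian R A],
      IsArtinian S (S ⊗[R] A))
    {R : Type u} [CommRing R] [IsNoetherianRing R] [IsLocalRing R]
    (p : ℕ) [Fact p.Prime] [CharP R p]
    (H : Type u) [AddCommGroup H] [Module R H] [IsArtinian R H] (F : H →ₛₗ[frobenius R p] H)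
    (x : R) (hxm : x ∈ IsLocalRing.maximalIdeal R) (hx : ∀ a : H, ∃ b : H, x • b = a)
    (hC : ∀ a : H, x • a = 0 →
      a ∈ Submodule.span R {z : H | ∃ b : H, x • b = 0 ∧ z = x ^ (p - 1) • F b}) :
    ∃ N : ℕ, ∀ δ ∈ (IsLocalRing.maximalIdeal R) ^ N,
      (∀ a : H, ∃ b : H, (x + δ) • b = a) ∧
      (∀ a : H, (x + δ) • a = 0 →
        a ∈ Submodule.span R {z : H | ∃ b : H, (x + δ) • b = 0 ∧ z = (x + δ) ^ (p - 1) • F b}) := by
  have htor : ∀ a : H, ∃ n : ℕ, x ^ n • a = 0 := by
    intro a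
    obtain ⟨n, hn⟩ := torsion_of_artinian (R := R) a
    exact ⟨n, hn _ (Ideal.pow_mem_pow hxm n)⟩
  obtain ⟨n, hn⟩ := exists_pow (R := R) p
  have hart : IsArtinian (Fr R p) (Fr R p ⊗[R] H) := hD n hn H
  obtain ⟨N1, hN1⟩ := hA (A := H) x hx
  obtain ⟨N2, hN2⟩ := hA (A := K p F) (toFr p x) (K_surj p F x hx hC)
  refine ⟨max N1 N2, fun δ hδ => ?_⟩
  have h1 : ∀ a : H, ∃ b : H, (x + δ) • b = a :=
    hN1 δ (Ideal.pow_le_pow_right (le_max_left _ _) hδ)
  refine ⟨h1, fun a ha => ?_⟩
  have h2 : ∀ a : K p F, ∃ b : K p F, (toFr p x + toFr p δ) • b = a := by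
    apply hN2 (toFr p δ)
    have h3 : δ ∈ (IsLocalRing.maximalIdeal R) ^ N2 := Ideal.pow_le_pow_right (le_max_right _ _) hδ
    exact h3
  set y := x + δ with hy
  obtain ⟨h, hh⟩ := surj_pow y h1 (p - 1) a
  obtain ⟨g, hg⟩ := theta_surj p F x htor hx hC h
  have hp1 : p - 1 + 1 = p := Nat.sub_add_cancel (Fact.out : p.Prime).pos
  have h4 : y ^ p • h = 0 := by
    rw [← hp1, pow_succ', mul_smul, hh, ha]
  have h5 : toFr p (y ^ p) • g ∈ K p F := by
    show theta p F (toFr p (y ^ p) • g) = 0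
    rw [theta_smul, hg]
    exact h4
  have h2' : ∀ a : K p F, ∃ b : K p F, toFr p y • b = a := h2
  obtain ⟨k, hk⟩ := surj_pow (R := Fr R p) (A := K p F) (toFr p y) h2' p
    ⟨toFr p (y ^ p) • g, h5⟩
  have h6 : toFr p (y ^ p) • (g - k.1) = 0 := by
    have h7 : toFr p y ^ p • k.1 = toFr p (y ^ p) • g := congrArg Subtype.val hk
    rw [smul_sub, ← h7, ← map_pow, sub_self]
  have h8 := theta_mem_G p F y h1 _ h6
  have h9 : theta p F k.1 = 0 := k.2
  rw [map_sub, hg, h9, sub_zero] at h8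
  rw [← hh]
  exact pow_span p F y (p - 1) h h8

end Pool.Agent.R688.FF
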