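import Pool.Agent.R688.FF.Cmp
import Pool.Agent.R688.FF.A
import Pool.Agent.R688.FF.D
import Pool.Agent.R688.FF.E

/-! F-fullness is `m`-adically stable. -/

namespace Pool.Agent.R688.FF
open Finset Pool.Agent.R688.AN.Cech Pool.Agent.R688.FC

universe u
variable {R : Type u} [CommRing R] {n : ℕ} (p : ℕ) [hp : Fact p.Prime]
  [IsNoetherianRing R] [IsLocalRing R]

/-- `A` has characteristic `p` and is F-full: every local cohomology module, computed by the Čech
complex on `g`, is spanned by the image of its Frobenius action. -/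
def IsFFull {A : Type u} [CommRing A] (g : Fin n → A) : Prop :=
  ∃ _ : CharP A p, ∀ i : ℕ, Submodule.span A (Set.range (frobH p g i)) = ⊤

theorem CechH_artinian (f : Fin n → R)
    (hf : (Ideal.span (Set.range f)).radical = IsLocalRing.maximalIdeal R) (i : ℕ) :
    IsArtinian R (CechH f i) := by
  have := HI_artinian f hf i ⊥
  let g : HI f ⊥ i →ₗ[R] CechH f i :=
    Submodule.mapQ _ (cobZ f i)
      (Submodule.inclusion (show Zs f (⊥ : Ideal R) i ≤ cocycles f i from
        fun c hc => ⟨hc.1, IC_bot f hc.2⟩)) (by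
        intro c hc
        have h1 : c.1 ∈ Bs f (⊥ : Ideal R) i := hc
        have h2 := (cls_eq_zero f i c.2).mpr h1
        have h3 : (⟨c.1, c.2.1, IC_bot f c.2.2⟩ : cocycles f i) ∈ cobZ f i :=
          (Submodule.Quotient.mk_eq_zero _).mp h2
        exact h3)
  refine isArtinian_of_surjective _ g ?_
  intro z
  obtain ⟨c, hc, rfl⟩ := cls_surj f i z
  exact ⟨Submodule.Quotient.mk ⟨c, hc⟩, rfl⟩

theorem nzd_stable {x : R} (hx : ∀ r : R, x * r = 0 → r = 0) :
    ∃ N : ℕ, ∀ δ ∈ (IsLocalRing.maximalIdeal R) ^ N, ∀ r : R, (x + δ) * r = 0 → r = 0 := by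
  classical
  have hfin : (associatedPrimes R R).Finite := associatedPrimes.finite R R
  have hxP : ∀ P ∈ associatedPrimes R R, x ∉ P := by
    intro P hP hxP
    have h1 : x ∈ ⋃ Q ∈ associatedPrimes R R, (Q : Set R) := Set.mem_iUnion₂_of_mem hP hxP
    rw [biUnion_associatedPrimes_eq_zero_divisors] at h1
    obtain ⟨r, hr, e⟩ := h1
    exact hr (hx r e)
  have h2 : ∀ P : Ideal R, ∃ N : ℕ, P ∈ associatedPrimes R R →
      x ∉ P ⊔ (IsLocalRing.maximalIdeal R) ^ N := by
    intro P
    by_cases hP : P ∈ associatedPrimes R R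
    · by_contra hcon
      push Not at hcon
      exact hxP P hP (krull P x (fun a => (hcon a).2))
    · exact ⟨0, fun h => absurd h hP⟩
  choose N hN using h2
  refine ⟨hfin.toFinset.sup N, fun δ hδ r hr => ?_⟩
  by_contra hr0
  have h1 : x + δ ∈ ⋃ Q ∈ associatedPrimes R R, (Q : Set R) := by
    rw [biUnion_associatedPrimes_eq_zero_divisors]
    exact ⟨r, hr0, hr⟩
  obtain ⟨P, hP, hxδ⟩ := Set.mem_iUnion₂.mp h1
  apply hN P hP
  have h3 : N P ≤ hfin.toFinset.sup N := Finset.le_sup (f := N) (hfin.mem_toFinset.mpr hP)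
  have h4 := Ideal.pow_le_pow_right h3 hδ
  have h6 : x + δ ∈ P ⊔ (IsLocalRing.maximalIdeal R) ^ N P :=
    Submodule.mem_sup_left (show x + δ ∈ P from hxδ)
  have h7 : δ ∈ P ⊔ (IsLocalRing.maximalIdeal R) ^ N P := Submodule.mem_sup_right h4
  have h5 := Submodule.sub_mem _ h6 h7
  rwa [add_sub_cancel_right] at h5

variable [CharP R p]

omit [IsNoetherianRing R] in
theorem charP_quot {x : R} (hx : x ∈ IsLocalRing.maximalIdeal R) :
    CharP (R ⧸ Ideal.span {x}) p := by
  have h1 : Nontrivial (R ⧸ Ideal.span {x}) := by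
    rw [Ideal.Quotient.nontrivial_iff]
    intro h
    have h2 : Ideal.span {x} ≤ IsLocalRing.maximalIdeal R := by
      rw [Ideal.span_singleton_le_iff_mem]; exact hx
    rw [h] at h2
    exact (IsLocalRing.maximalIdeal.isMaximal R).ne_top (top_le_iff.mp h2)
  rw [CharP.charP_iff_prime_eq_zero hp.out]
  have h3 := congrArg (Ideal.Quotient.mk (Ideal.span {x})) (CharP.cast_eq_zero R p)
  rwa [map_natCast, map_zero] at h3

theorem main (f : Fin n → R)
    (hf : (Ideal.span (Set.range f)).radical = IsLocalRing.maximalIdeal R) (x : R)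
    (hxm : x ∈ IsLocalRing.maximalIdeal R) (hx : ∀ r : R, x * r = 0 → r = 0)
    (hF : IsFFull p (fun j => Ideal.Quotient.mk (Ideal.span {x}) (f j))) :
    ∃ N : ℕ, ∀ δ ∈ (IsLocalRing.maximalIdeal R) ^ N,
      IsFFull p (fun j => Ideal.Quotient.mk (Ideal.span {x + δ}) (f j)) := by
  obtain ⟨_, hF⟩ := hF
  have hJ : ∀ y : R, J y = Ideal.span {y} := fun y => bot_sup_eq _
  have hFF : ∀ i, FFe p f (J x) i := by
    intro i
    rw [hJ]
    exact (ffull_iff p f (Ideal.span {x}) i).mp (hF i)
  have hxr : x ∈ (Ideal.span (Set.range f)).radical := by rw [hf]; exact hxm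
  have hsurj := surj_of_FFe p f hx hxr hFF
  have hCC : ∀ i, CC p f x i := by
    intro i
    cases i with
    | zero =>
      intro a _
      rw [H0_zero f hx hxr a]
      exact Submodule.zero_mem _
    | succ i => exact CC_of_FFe p f hx (hFF i)
  have hst : ∀ i, ∃ N : ℕ, ∀ δ ∈ (IsLocalRing.maximalIdeal R) ^ N,
      (∀ a : CechH f i, ∃ b, (x + δ) • b = a) ∧ CC p f (x + δ) i := by
    intro i
    have := CechH_artinian f hf i
    exact stable_criterion_of stable_surj artinian_baseChange p (CechH f i) (frobH p f i) x hxm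
      (hsurj i) (hCC i)
  choose N hN using hst
  obtain ⟨N1, hN1⟩ := nzd_stable hx
  refine ⟨max ((Finset.range (n + 2)).sup N) (max N1 1), fun δ hδ => ?_⟩
  have hδ1 : δ ∈ (IsLocalRing.maximalIdeal R) ^ N1 :=
    Ideal.pow_le_pow_right ((le_max_left _ _).trans (le_max_right _ _)) hδ
  have hδ2 : δ ∈ IsLocalRing.maximalIdeal R := by
    have := Ideal.pow_le_pow_right ((le_max_right N1 1).trans (le_max_right _ _)) hδ
    rwa [pow_one] at this
  have hδ3 : ∀ i < n + 2, δ ∈ (IsLocalRing.maximalIdeal R) ^ N i := fun i hi =>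
    Ideal.pow_le_pow_right ((Finset.le_sup (f := N) (Finset.mem_range.mpr hi)).trans
      (le_max_left _ _)) hδ
  have hym : x + δ ∈ IsLocalRing.maximalIdeal R := Ideal.add_mem _ hxm hδ2
  have hy := hN1 δ hδ1
  have hch := charP_quot p hym
  refine ⟨hch, fun i => ?_⟩
  refine (ffull_iff p f (Ideal.span {x + δ}) i).mpr ?_
  rw [← hJ]
  by_cases hi : i ≤ n
  · exact FFe_of_CC p f hy (hN (i + 1) δ (hδ3 (i + 1) (by omega))).2
      (hN i δ (hδ3 i (by omega))).1
  · intro c hc
    have : c = 0 := by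
      funext s
      apply hc.1 s
      have := Finset.card_le_univ s
      rw [Fintype.card_fin] at this
      omega
    rw [this]
    exact Submodule.zero_mem _

end Pool.Agent.R688.FF
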