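import Pool.Agent.R688.FC.Alg

/-! Čech cohomology is torsion. -/

namespace Pool.Agent.R688.FF
open Finset Pool.Agent.R688.AN.Cech Pool.Agent.R688.FC

universe u
variable {R : Type u} [CommRing R] {n : ℕ}

theorem lift_pow (f : Fin n → R) (j : Fin n) {s t : Finset (Fin n)} (ht : t = insert j s)
    (h : s ⊆ t) (hj : j ∉ s) (z : CLoc f t) :
    ∃ N : ℕ, ∀ M ≥ N, ∃ w : CLoc f s, res f h w = f j ^ M • z := by
  subst ht
  obtain ⟨k, r, e⟩ := IsLocalization.Away.surj (∏ i ∈ insert j s, f i) z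
  refine ⟨k, fun M hM => ?_⟩
  have hu : IsUnit (algebraMap R (CLoc f s) (∏ i ∈ s, f i) ^ k) :=
    (IsLocalization.Away.algebraMap_isUnit _).pow k
  obtain ⟨v, hv⟩ := hu
  refine ⟨f j ^ (M - k) • (algebraMap R _ r * ((v⁻¹ : (CLoc f s)ˣ) : CLoc f s)), ?_⟩
  have hu' : IsUnit (algebraMap R (CLoc f (insert j s)) (∏ i ∈ s, f i) ^ k) :=
    (isUnit_res f h).pow k
  apply hu'.mul_left_cancel
  rw [res_smul, map_mul, res_algebraMap, mul_smul_comm, ← mul_assoc,
    mul_comm _ (algebraMap R (CLoc f (insert j s)) r), mul_assoc]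
  have e2 : algebraMap R (CLoc f (insert j s)) (∏ i ∈ s, f i) ^ k *
      res f h ((v⁻¹ : (CLoc f s)ˣ) : CLoc f s) = 1 := by
    rw [← res_algebraMap f h, ← map_pow, ← hv, ← map_mul, Units.mul_inv, map_one]
  rw [e2, mul_one, ← e, Finset.prod_insert hj, map_mul, mul_pow, Algebra.smul_def,
    Algebra.smul_def, map_pow, map_pow]
  have e3 : algebraMap R (CLoc f (insert j s)) (f j) ^ M =
      algebraMap R (CLoc f (insert j s)) (f j) ^ (M - k) *
        algebraMap R (CLoc f (insert j s)) (f j) ^ k := by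
    rw [← pow_add]
    congr 1
    omega
  rw [e3]
  ring

theorem mem_of_res (f : Fin n → R) (I : Ideal R) (j : Fin n) {s t : Finset (Fin n)}
    (ht : t = insert j s) (h : s ⊆ t) (z : CLoc f s)
    (hz : res f h z ∈ I.map (algebraMap R (CLoc f t))) :
    ∃ N : ℕ, f j ^ N • z ∈ I.map (algebraMap R (CLoc f s)) := by
  subst ht
  obtain ⟨k, r, e⟩ := IsLocalization.Away.surj (∏ i ∈ s, f i) z
  have hu : IsUnit (algebraMap R (CLoc f s) (∏ i ∈ s, f i) ^ k) :=
    (IsLocalization.Away.algebraMap_isUnit _).pow k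
  have h1 : algebraMap R (CLoc f (insert j s)) r ∈ I.map (algebraMap R (CLoc f (insert j s))) := by
    rw [← res_algebraMap f h, ← e, map_mul]
    exact Ideal.mul_mem_right _ _ hz
  rw [mem_map_iff] at h1
  obtain ⟨N, hN⟩ := h1
  refine ⟨N, ?_⟩
  rw [← Ideal.mul_unit_mem_iff_mem _ hu, smul_mul_assoc, e, Algebra.smul_def, ← map_mul,
    mem_map_iff]
  refine ⟨N, ?_⟩
  by_cases hj : j ∈ s
  · rw [Finset.insert_eq_of_mem hj] at hN
    rw [mul_left_comm]
    exact Ideal.mul_mem_left _ _ hN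
  · rw [Finset.prod_insert hj, mul_pow] at hN
    rw [← mul_assoc, mul_comm (_ ^ N) (f j ^ N)]
    exact hN

/-- signs -/
theorem sgn1 {t : Finset (Fin n)} {j : Fin n} :
    #{l ∈ t.erase j | l < j} = #{l ∈ t | l < j} := by
  congr 1
  ext l
  simp only [mem_filter, mem_erase]
  constructor
  · rintro ⟨⟨_, h1⟩, h2⟩
    exact ⟨h1, h2⟩
  · rintro ⟨h1, h2⟩
    exact ⟨⟨h2.ne, h1⟩, h2⟩

theorem sgn2 {t : Finset (Fin n)} {j l : Fin n} (hj : j ∉ t) (hl : l ∈ t) :
    ∃ a b c d : ℕ, #{k ∈ t | k < l} = a ∧ #{k ∈ t.erase l | k < j} = b ∧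
      #{k ∈ insert j t | k < l} = c ∧ #{k ∈ t | k < j} = d ∧
      ((c = a ∧ d = b + 1) ∨ (c = a + 1 ∧ d = b)) := by
  refine ⟨_, _, _, _, rfl, rfl, rfl, rfl, ?_⟩
  have hne : j ≠ l := fun h => hj (h ▸ hl)
  rcases lt_or_gt_of_ne hne with h | h
  · right
    constructor
    · rw [Finset.filter_insert, if_pos h, Finset.card_insert_of_notMem]
      simp [hj]
    · congr 1
      ext k
      simp only [mem_filter, mem_erase]
      constructor
      · rintro ⟨h1, h2⟩
        exact ⟨⟨(h2.trans h).ne, h1⟩, h2⟩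
      · rintro ⟨⟨_, h1⟩, h2⟩
        exact ⟨h1, h2⟩
  · left
    constructor
    · rw [Finset.filter_insert, if_neg h.not_gt]
    · have : ({k ∈ t.erase l | k < j} : Finset (Fin n)) = ({k ∈ t | k < j} : Finset (Fin n)).erase l := by
        ext k
        simp only [mem_filter, mem_erase]
        tauto
      rw [this, Finset.card_erase_add_one]
      simp [hl, h]

theorem sgn3 {A : Type*} [CommRing A] {a b c d : ℕ}
    (h : (c = a ∧ d = b + 1) ∨ (c = a + 1 ∧ d = b)) (z : A) :
    (-1) ^ a * ((-1) ^ b * z) = (-1) ^ (d + 1) * ((-1) ^ c * z) := by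
  rcases h with ⟨rfl, rfl⟩ | ⟨rfl, rfl⟩
  · ring
  · ring

theorem neg_one_sq_pow {A : Type*} [CommRing A] (a : ℕ) (z : A) :
    (-1) ^ a * ((-1) ^ a * z) = z := by
  rw [← mul_assoc, ← mul_pow]
  simp

/-- the homotopy -/
theorem homotopy (f : Fin n → R) (I : Ideal R) (i : ℕ) {c : Cochain f} (hc : c ∈ Zs f I i)
    (j : Fin n) :
    ∃ (M : ℕ) (w : Cochain f), (∀ s, s.card + 1 ≠ i → w s = 0) ∧
      ∀ t : Finset (Fin n), res f (Finset.subset_insert j t) (dif f w t - f j ^ M • c t) ∈
        I.map (algebraMap R (CLoc f (insert j t))) := by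
  classical
  have h1 : ∀ s : Finset (Fin n), ∃ N : ℕ, ∀ M ≥ N, ∃ v : CLoc f s,
      ((j ∉ s → res f (Finset.subset_insert j s) v = f j ^ M • c (insert j s)) ∧
        (j ∈ s → v = 0)) ∧ (s.card + 1 ≠ i → v = 0) := by
    intro s
    by_cases hj : j ∈ s
    · exact ⟨0, fun M _ => ⟨0, ⟨fun h => absurd hj h, fun _ => rfl⟩, fun _ => rfl⟩⟩
    · by_cases hs : s.card + 1 = i
      · obtain ⟨N, hN⟩ := lift_pow f j rfl (Finset.subset_insert j s) hj (c (insert j s))
        refine ⟨N, fun M hM => ?_⟩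
        obtain ⟨w, hw⟩ := hN M hM
        exact ⟨w, ⟨fun _ => hw, fun h => absurd h hj⟩, fun h => absurd hs h⟩
      · refine ⟨0, fun M _ => ⟨0, ⟨fun _ => ?_, fun _ => rfl⟩, fun _ => rfl⟩⟩
        rw [map_zero, hc.1 (insert j s) (by rw [Finset.card_insert_of_notMem hj]; exact hs),
          smul_zero]
  choose N hN using h1
  let M := Finset.univ.sup N
  have h2 : ∀ s, ∃ v : CLoc f s,
      ((j ∉ s → res f (Finset.subset_insert j s) v = f j ^ M • c (insert j s)) ∧
        (j ∈ s → v = 0)) ∧ (s.card + 1 ≠ i → v = 0) :=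
    fun s => hN s M (Finset.le_sup (Finset.mem_univ s))
  choose v hv using h2
  let w : Cochain f := fun s => (-1) ^ (#{k ∈ s | k < j}) * v s
  refine ⟨M, w, ?_, ?_⟩
  · intro s hs
    show (-1) ^ (#{k ∈ s | k < j}) * v s = 0
    rw [(hv s).2 hs, mul_zero]
  intro t
  by_cases hjt : j ∈ t
  · -- the difference is zero
    have e1 : dif f w t = f j ^ M • c t := by
      show ∑ l ∈ t, (-1) ^ (#{k ∈ t | k < l}) * res f (t.erase_subset l)
        ((-1) ^ (#{k ∈ t.erase l | k < j}) * v (t.erase l)) = _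
      rw [Finset.sum_eq_single j]
      · rw [map_mul, map_pow, map_neg, map_one, sgn1, neg_one_sq_pow]
        have e2 := (hv (t.erase j)).1.1 (Finset.notMem_erase j t)
        have e3 : insert j (t.erase j) = t := Finset.insert_erase hjt
        have key : ∀ (t' : Finset (Fin n)) (ht' : t' = t) (h : t.erase j ⊆ t')
            (_ : res f h (v (t.erase j)) = f j ^ M • c t'),
            res f (t.erase_subset j) (v (t.erase j)) = f j ^ M • c t := by
          intro t' ht' h hh
          subst ht'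
          exact hh
        exact key _ e3 _ e2
      · intro l _ hlj
        rw [(hv (t.erase l)).1.2 (Finset.mem_erase.mpr ⟨fun h => hlj h.symm, hjt⟩), mul_zero,
          map_zero, mul_zero]
      · intro h
        exact absurd hjt h
    rw [e1, sub_self, map_zero]
    exact Ideal.zero_mem _
  · set t' := insert j t with ht'
    have hsub : t ⊆ t' := Finset.subset_insert j t
    have e1 : res f hsub (dif f w t) =
        (-1) ^ (#{k ∈ t | k < j} + 1) * (f j ^ M • ∑ l ∈ t, (-1) ^ (#{k ∈ t' | k < l}) *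
          res f (t'.erase_subset l) (c (t'.erase l))) := by
      show res f hsub (∑ l ∈ t, (-1) ^ (#{k ∈ t | k < l}) * res f (t.erase_subset l)
        ((-1) ^ (#{k ∈ t.erase l | k < j}) * v (t.erase l))) = _
      rw [map_sum, Finset.smul_sum]
      refine Eq.trans ?_ (Finset.mul_sum _ _ _).symm
      refine Finset.sum_congr rfl (fun l hl => ?_)
      have hjl : j ∉ t.erase l := fun h => hjt (Finset.mem_of_mem_erase h)
      have hne : j ≠ l := fun h => hjt (h ▸ hl)
      have e2 := (hv (t.erase l)).1.1 hjl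
      have e3 : insert j (t.erase l) = t'.erase l := by
        rw [ht', Finset.erase_insert_of_ne hne]
      have e4 : res f ((t.erase_subset l).trans hsub) (v (t.erase l)) =
          f j ^ M • res f (t'.erase_subset l) (c (t'.erase l)) := by
        have e5 : insert j (t.erase l) ⊆ t' := by rw [e3]; exact t'.erase_subset l
        have e6 := congrArg (res f e5) e2
        rw [res_res', res_smul] at e6
        rw [e6, res_congr f c e3 e5 (t'.erase_subset l)]
      rw [map_mul, map_pow, map_neg, map_one, res_res', map_mul, map_pow, map_neg, map_one, e4]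
      obtain ⟨a, b, c', d, ha, hb, hc', hd, h⟩ := sgn2 hjt hl
      rw [ha, hb, hc', hd, sgn3 h, mul_smul_comm]
    have e2 : (-1) ^ (#{k ∈ t | k < j}) * res f hsub (c t) + ∑ l ∈ t, (-1) ^ (#{k ∈ t' | k < l}) *
          res f (t'.erase_subset l) (c (t'.erase l)) ∈ I.map (algebraMap R (CLoc f t')) := by
      have h3 : difAt f c t' ∈ I.map (algebraMap R (CLoc f t')) := hc.2 t'
      have h4 : difAt f c t' = (-1) ^ (#{k ∈ t | k < j}) * res f hsub (c t) +
          ∑ l ∈ t, (-1) ^ (#{k ∈ t' | k < l}) * res f (t'.erase_subset l) (c (t'.erase l)) := by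
        have h5 : difAt f c t' = ∑ l ∈ insert j t, (-1) ^ (#{k ∈ t' | k < l}) *
            res f (t'.erase_subset l) (c (t'.erase l)) := rfl
        rw [h5, Finset.sum_insert hjt]
        have h6 : #{k ∈ t' | k < j} = #{k ∈ t | k < j} := by
          rw [ht', Finset.filter_insert, if_neg (lt_irrefl j)]
        have h7 : t'.erase j = t := by rw [ht', Finset.erase_insert hjt]
        rw [h6, res_congr f c h7 (t'.erase_subset j) hsub]
      rw [← h4]
      exact h3
    rw [map_sub, e1, res_smul]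
    have e3 := Ideal.mul_mem_left _ ((-1) ^ (#{k ∈ t | k < j} + 1) *
      algebraMap R (CLoc f t') (f j ^ M)) e2
    have e4 : (-1) ^ (#{k ∈ t | k < j} + 1) * algebraMap R (CLoc f t') (f j ^ M) *
        ((-1) ^ (#{k ∈ t | k < j}) * res f hsub (c t) + ∑ l ∈ t, (-1) ^ (#{k ∈ t' | k < l}) *
          res f (t'.erase_subset l) (c (t'.erase l))) =
        (-1) ^ (#{k ∈ t | k < j} + 1) * (f j ^ M • ∑ l ∈ t, (-1) ^ (#{k ∈ t' | k < l}) *
          res f (t'.erase_subset l) (c (t'.erase l))) - f j ^ M • res f hsub (c t) := by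
      rw [Algebra.smul_def, Algebra.smul_def, mul_add]
      have e5 : ((-1 : CLoc f t') ^ (#{k ∈ t | k < j})) * ((-1) ^ (#{k ∈ t | k < j})) = 1 := by
        rw [← mul_pow]; simp
      have e6 : (-1 : CLoc f t') ^ (#{k ∈ t | k < j} + 1) * algebraMap R (CLoc f t') (f j ^ M) *
        ((-1) ^ (#{k ∈ t | k < j}) * res f hsub (c t)) =
          - (((-1 : CLoc f t') ^ (#{k ∈ t | k < j})) * ((-1) ^ (#{k ∈ t | k < j}))) *
            (algebraMap R (CLoc f t') (f j ^ M) * res f hsub (c t)) := by ring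
      rw [e6, e5]
      ring
    rw [← e4]
    exact e3

/-- Čech cohomology modulo `I` is torsion with respect to every `f j`. -/
theorem tors_f (f : Fin n → R) (I : Ideal R) (i : ℕ) {c : Cochain f} (hc : c ∈ Zs f I i)
    (j : Fin n) : ∃ N : ℕ, f j ^ N • c ∈ Bs f I i := by
  obtain ⟨M, w, hw, h⟩ := homotopy f I i hc j
  choose N hN using fun t => mem_of_res f I j rfl (Finset.subset_insert j t) _ (h t)
  let N' := Finset.univ.sup N
  have hIC : f j ^ N' • (dif f w - f j ^ M • c) ∈ IC f I := by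
    intro t
    have h1 : N t ≤ N' := Finset.le_sup (Finset.mem_univ t)
    have h2 := hN t
    show f j ^ N' • (dif f w t - f j ^ M • c t) ∈ _
    rw [← Nat.sub_add_cancel h1, pow_add, mul_smul, Algebra.smul_def]
    exact Ideal.mul_mem_left _ _ h2
  refine ⟨N' + M, ?_⟩
  have e1 : f j ^ (N' + M) • c = dif f (f j ^ N' • w) - f j ^ N' • (dif f w - f j ^ M • c) := by
    rw [map_smul, smul_sub, sub_sub_cancel, ← mul_smul, ← pow_add]
  rw [e1]
  cases i with
  | zero =>
    have hw0 : w = 0 := funext (fun s => hw s (by omega))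
    rw [hw0, smul_zero, map_zero, zero_sub]
    rw [hw0, map_zero, zero_sub, smul_neg] at hIC
    apply Submodule.neg_mem
    rw [zero_sub, smul_neg]
    exact ⟨hIC, Submodule.neg_mem _ (Submodule.smul_mem _ _ (Submodule.smul_mem _ _ hc.1))⟩
  | succ i =>
    have hwd : w ∈ deg f i := fun s hs => hw s (by omega)
    have h3 : f j ^ N' • w ∈ deg f i := Submodule.smul_mem _ _ hwd
    refine Submodule.sub_mem _ (dif_mem_Bs f I h3) (IC_le_Bs f I _ ⟨hIC, ?_⟩)
    exact Submodule.smul_mem _ _ (Submodule.sub_mem _ (dif_deg f hwd)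
      (Submodule.smul_mem _ _ hc.1))

/-- torsion with respect to elements of the radical. -/
theorem tors_rad (f : Fin n → R) (I : Ideal R) (i : ℕ) {c : Cochain f} (hc : c ∈ Zs f I i)
    {y : R} (hy : y ∈ (Ideal.span (Set.range f)).radical) : ∃ N : ℕ, y ^ N • c ∈ Bs f I i := by
  let 𝔠 : Ideal R :=
    { carrier := {r | r • c ∈ Bs f I i}
      zero_mem' := by
        show (0 : R) • c ∈ Bs f I i
        rw [zero_smul]; exact Submodule.zero_mem _
      add_mem' := fun {a b} ha hb => by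
        show (a + b) • c ∈ Bs f I i
        rw [add_smul]; exact Submodule.add_mem _ ha hb
      smul_mem' := fun r a ha => by
        show (r * a) • c ∈ Bs f I i
        rw [mul_smul]; exact Submodule.smul_mem _ _ ha }
  have h1 : Ideal.span (Set.range f) ≤ 𝔠.radical := by
    rw [Ideal.span_le]
    rintro _ ⟨j, rfl⟩
    obtain ⟨N, hN⟩ := tors_f f I i hc j
    exact ⟨N, hN⟩
  have h2 : y ∈ 𝔠.radical := by
    have := Ideal.radical_mono h1 hy
    rwa [Ideal.radical_idem] at this
  obtain ⟨N, hN⟩ := h2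
  exact ⟨N, hN⟩

end Pool.Agent.R688.FF
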